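import Pool.Agent.Q224.LM.Fib

/-!
# Coins indexed by the small sets, and a small thick family
-/

set_option autoImplicit false

open MeasureTheory ProbabilityTheory Set Cardinal

namespace Q224.LM

/-- a type of cardinality `ℵ₁` -/
def W1 : Type := (ℵ₁ : Cardinal.{0}).out

theorem W1_card : #W1 = ℵ₁ := Cardinal.mk_out _

theorem W1_unc : ¬ (univ : Set W1).Countable := by
  intro h
  have h2 : #W1 ≤ ℵ₀ := by
    have := Cardinal.le_aleph0_iff_set_countable.2 h
    rwa [Cardinal.mk_univ] at this
  rw [W1_card] at h2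
  exact absurd h2 (not_le.2 Cardinal.aleph0_lt_aleph_one)

instance : Nonempty W1 := by
  by_contra h
  rw [not_nonempty_iff] at h
  exact W1_unc (Set.to_countable _)

/-- the index set of the coins -/
def Idx : Type := {B : Set (W1 × W1) // SId.Sm B}

/-- the fair coin -/
noncomputable def fair : Measure Bool :=
  (1 / 2 : ENNReal) • Measure.dirac true + (1 / 2 : ENNReal) • Measure.dirac false

instance : IsProbabilityMeasure fair := by
  constructor
  unfold fair
  simp
  exact ENNReal.inv_two_add_inv_two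

theorem fair_flip (b : Bool) : fair.map (fun x => xor x b) = fair := by
  unfold fair
  rw [Measure.map_add _ _ (measurable_of_finite _), Measure.map_smul, Measure.map_smul,
    Measure.map_dirac' (measurable_of_finite _), Measure.map_dirac' (measurable_of_finite _)]
  cases b
  · simp
  · simp [add_comm]

/-- all coins are fair and independent -/
noncomputable def coin : Measure (Idx → Bool) := Measure.infinitePi (fun _ => fair)

instance : IsProbabilityMeasure coin := by
  unfold coin
  infer_instance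

/-- flipping some of the coins -/
def flip (δ : Idx → Bool) (x : Idx → Bool) : Idx → Bool := fun b => xor (x b) (δ b)

theorem measurable_flip (δ : Idx → Bool) : Measurable (flip δ) := by
  refine measurable_pi_lambda _ (fun b => ?_)
  exact (measurable_of_finite (fun x : Bool => xor x (δ b))).comp (measurable_pi_apply b)

theorem coin_flip (δ : Idx → Bool) : coin.map (flip δ) = coin := by
  unfold coin flip
  rw [Measure.infinitePi_map_pi (μ := fun _ : Idx => fair)
    (f := fun (b : Idx) (x : Bool) => xor x (δ b)) (fun b => measurable_of_finite _)]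
  congr 1
  funext b
  exact fair_flip (δ b)

/-- a measurable set of coin sequences depends on countably many coins -/
theorem countable_dep {A : Set (Idx → Bool)} (hA : MeasurableSet A) :
    ∃ T : Set Idx, T.Countable ∧ ∀ x y : Idx → Bool, (∀ b ∈ T, x b = y b) → (x ∈ A ↔ y ∈ A) := by
  let M : MeasurableSpace (Idx → Bool) :=
    { MeasurableSet' := fun A => ∃ T : Set Idx, T.Countable ∧
        ∀ x y : Idx → Bool, (∀ b ∈ T, x b = y b) → (x ∈ A ↔ y ∈ A)
      measurableSet_empty := ⟨∅, countable_empty, fun x y _ => by simp⟩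
      measurableSet_compl := by
        rintro A ⟨T, hT, h⟩
        exact ⟨T, hT, fun x y hxy => not_congr (h x y hxy)⟩
      measurableSet_iUnion := by
        intro f hf
        choose T hT h using hf
        refine ⟨⋃ n, T n, countable_iUnion hT, fun x y hxy => ?_⟩
        rw [mem_iUnion, mem_iUnion]
        exact exists_congr fun n => h n x y (fun b hb => hxy b (mem_iUnion.2 ⟨n, hb⟩)) }
  have hle : (MeasurableSpace.pi : MeasurableSpace (Idx → Bool)) ≤ M := by
    refine iSup_le fun b => ?_
    rintro _ ⟨s, _, rfl⟩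
    refine ⟨{b}, countable_singleton b, fun x y hxy => ?_⟩
    have := hxy b rfl
    show x b ∈ s ↔ y b ∈ s
    rw [this]
  exact hle A hA

/-- codes of the members of the thick family -/
def Om : Type := (ℕ → W1 × W1) × (ℕ → ℕ → Prop) × (ℕ → Prop)

open Classical in
/-- the thick family -/
noncomputable def xi (ω : Om) (b : Idx) : Bool :=
  decide (∃ n, (∀ i, ω.2.1 n i ↔ ω.1 i ∈ b.1) ∧ ω.2.2 n)

theorem xi_ext (T : Set Idx) (hT : T.Countable) (a : Idx → Bool) :
    ∃ ω : Om, ∀ b ∈ T, xi ω b = a b := by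
  classical
  rcases T.eq_empty_or_nonempty with h0 | hne
  · subst h0
    exact ⟨(fun _ => (Classical.arbitrary _, Classical.arbitrary _), fun _ _ => True,
      fun _ => True), fun b hb => absurd hb (by simp)⟩
  obtain ⟨f, hf⟩ := hT.exists_eq_range hne
  have hsep : ∀ p : ℕ × ℕ, ∃ k : W1 × W1, f p.1 ≠ f p.2 → ¬ (k ∈ (f p.1).1 ↔ k ∈ (f p.2).1) := by
    intro p
    by_cases h : f p.1 = f p.2
    · exact ⟨(Classical.arbitrary _, Classical.arbitrary _), fun h' => absurd h h'⟩
    · by_contra hcon
      push Not at hcon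
      apply h
      apply Subtype.ext
      ext k
      exact (hcon k).2
  choose k hk using hsep
  refine ⟨(fun i => k (Nat.unpair i), fun n i => k (Nat.unpair i) ∈ (f n).1,
    fun n => a (f n) = true), ?_⟩
  intro b hb
  rw [hf] at hb
  obtain ⟨m, rfl⟩ := hb
  have key : (∃ n, (∀ i, k (Nat.unpair i) ∈ (f n).1 ↔ k (Nat.unpair i) ∈ (f m).1) ∧
      a (f n) = true) ↔ a (f m) = true := by
    constructor
    · rintro ⟨n, hn, ha⟩
      have hnm : f n = f m := by
        by_contra hne'
        have h1 := hk (n, m) hne'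
        have h2 := hn (Nat.pair n m)
        rw [Nat.unpair_pair] at h2
        exact h1 h2
      rwa [← hnm]
    · intro ha
      exact ⟨m, fun i => Iff.rfl, ha⟩
  unfold xi
  by_cases ha : a (f m) = true
  · rw [ha, decide_eq_true_eq]
    exact key.2 ha
  · have ha' : a (f m) = false := by simpa using ha
    rw [ha', decide_eq_false_iff_not]
    intro hcon
    exact ha (key.1 hcon)

/-- singletons as coins -/
def sing (p : W1 × W1) : Idx := ⟨{p}, (SId.two W1 W1 W1_unc W1_unc).single p⟩

theorem sing_inj : Function.Injective sing := by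
  intro p q h
  have := congrArg Subtype.val h
  exact Set.singleton_injective this

theorem exists_fresh (T : Set Idx) (hT : T.Countable) :
    ∃ g : ℕ → Idx, Function.Injective g ∧ ∀ n, g n ∉ T := by
  have h1 : ¬ (Tᶜ).Finite := by
    intro hfin
    have h2 : (univ : Set Idx).Countable := by
      rw [← union_compl_self T]
      exact hT.union hfin.countable
    apply W1_unc
    have h3 : (univ : Set W1) ⊆ (fun y => sing (y, y)) ⁻¹' (univ : Set Idx) := fun _ _ => mem_univ _
    refine (Set.Countable.preimage_of_injOn h2 ?_).mono h3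
    intro x _ y _ hxy
    have := sing_inj hxy
    exact (Prod.ext_iff.1 this).1
  have h2 : (Tᶜ).Infinite := h1
  refine ⟨fun n => (Set.Infinite.natEmbedding Tᶜ h2 n).1, ?_,
    fun n => (Set.Infinite.natEmbedding Tᶜ h2 n).2⟩
  exact Subtype.val_injective.comp (Set.Infinite.natEmbedding Tᶜ h2).injective

theorem thick0 {A : Set (Idx → Bool)} (hA : MeasurableSet A) (hne : A.Nonempty) (N : Set Om)
    (hN : N.Countable) : ∃ ω, ω ∉ N ∧ xi ω ∈ A := by
  classical
  obtain ⟨a, ha⟩ := hne
  obtain ⟨T, hT, hdep⟩ := countable_dep hA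
  obtain ⟨g, hg, hgT⟩ := exists_fresh T hT
  rcases N.eq_empty_or_nonempty with h0 | hNne
  · obtain ⟨ω, hω⟩ := xi_ext T hT a
    refine ⟨ω, by simp [h0], (hdep _ _ hω).2 ha⟩
  obtain ⟨w, hw⟩ := hN.exists_eq_range hNne
  let a' : Idx → Bool := fun b =>
    if h : ∃ n, g n = b then !(xi (w (Classical.choose h)) b) else a b
  have ha'1 : ∀ b ∈ T, a' b = a b := by
    intro b hb
    show (if h : ∃ n, g n = b then _ else _) = _
    rw [dif_neg]
    rintro ⟨n, hn⟩
    exact hgT n (by rw [hn]; exact hb)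
  have ha'2 : ∀ n, a' (g n) = !(xi (w n) (g n)) := by
    intro n
    have hex : ∃ m, g m = g n := ⟨n, rfl⟩
    have hch : Classical.choose hex = n := hg (Classical.choose_spec hex)
    show (if h : ∃ m, g m = g n then !(xi (w (Classical.choose h)) (g n)) else a (g n)) = _
    rw [dif_pos hex, hch]
  obtain ⟨ω, hω⟩ := xi_ext (T ∪ range g) (hT.union (countable_range g)) a'
  refine ⟨ω, ?_, ?_⟩
  · intro hcon
    rw [hw] at hcon
    obtain ⟨n, hn⟩ := hcon
    have h1 := hω (g n) (Or.inr ⟨n, rfl⟩)
    rw [ha'2 n, hn] at h1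
    cases h : xi ω (g n) <;> simp [h] at h1
  · refine (hdep _ _ ?_).2 ha
    intro b hb
    rw [hω b (Or.inl hb), ha'1 b hb]

theorem Om_card : #(W1 × Om) ≤ 𝔠 := by
  have hW : #W1 ≤ 𝔠 := by
    rw [W1_card]
    exact Cardinal.aleph_one_le_continuum
  have hWW : #(W1 × W1) ≤ 𝔠 := by
    rw [mk_prod, lift_id]
    calc #W1 * #W1 ≤ 𝔠 * 𝔠 := mul_le_mul' hW hW
      _ = 𝔠 := Cardinal.continuum_mul_self
  have h1 : #(ℕ → W1 × W1) ≤ 𝔠 := by
    rw [mk_pi, prod_const, lift_id, lift_id, mk_nat]
    calc #(W1 × W1) ^ ℵ₀ ≤ 𝔠 ^ ℵ₀ := power_le_power_right hWW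
      _ = 𝔠 := Cardinal.continuum_power_aleph0
  have h2 : #(ℕ → Prop) ≤ 𝔠 := by simp
  have h3 : #(ℕ → ℕ → Prop) ≤ 𝔠 := by
    rw [mk_pi, prod_const, lift_id, lift_id, mk_nat]
    calc #(ℕ → Prop) ^ ℵ₀ ≤ 𝔠 ^ ℵ₀ := power_le_power_right h2
      _ = 𝔠 := Cardinal.continuum_power_aleph0
  have h4 : #Om ≤ 𝔠 := by
    unfold Om
    simp only [mk_prod, lift_id]
    calc #(ℕ → W1 × W1) * (#(ℕ → ℕ → Prop) * #(ℕ → Prop)) ≤ 𝔠 * (𝔠 * 𝔠) :=
          mul_le_mul' h1 (mul_le_mul' h3 h2)
      _ = 𝔠 := by rw [Cardinal.continuum_mul_self, Cardinal.continuum_mul_self]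
  simp only [mk_prod, lift_id]
  calc #W1 * #Om ≤ 𝔠 * 𝔠 := mul_le_mul' hW h4
    _ = 𝔠 := Cardinal.continuum_mul_self

end Q224.LM
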