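import Pool.Agent.Q224.LM.Defs

/-!
# Labelled Markov processes with four layers
-/

set_option autoImplicit false

open MeasureTheory ProbabilityTheory Set

namespace Q224.LM

section

variable (L J E G : Type) [MeasurableSpace J] [MeasurableSpace E] [MeasurableSpace G]

/-- the states -/
abbrev LS : Type := Unit ⊕ (J ⊕ (E ⊕ G))

variable {J E G}

/-- the layers -/
def i1 (j : J) : LS J E G := Sum.inr (Sum.inl j)
def i2 (e : E) : LS J E G := Sum.inr (Sum.inr (Sum.inl e))
def i3 (g : G) : LS J E G := Sum.inr (Sum.inr (Sum.inr g))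

theorem measurable_i1 : Measurable (i1 : J → LS J E G) := measurable_inr.comp measurable_inl
theorem measurable_i2 : Measurable (i2 : E → LS J E G) :=
  measurable_inr.comp (measurable_inr.comp measurable_inl)
theorem measurable_i3 : Measurable (i3 : G → LS J E G) :=
  measurable_inr.comp (measurable_inr.comp measurable_inr)

/-- the measures of the layered process -/
noncomputable def ltau (k0 : Measure J) (k1 : Kernel J E) (k2 : Kernel E G) (k3 : Kernel G G) :
    Kernel (LS J E G) (LS J E G) where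
  toFun := Sum.elim (fun _ => k0.map i1) (Sum.elim (fun j => (k1 j).map i2)
    (Sum.elim (fun e => (k2 e).map i3) (fun g => (k3 g).map i3)))
  measurable' := by
    refine Measurable.sumElim measurable_const (Measurable.sumElim ?_ (Measurable.sumElim ?_ ?_))
    · exact (Measure.measurable_map _ measurable_i2).comp k1.measurable
    · exact (Measure.measurable_map _ measurable_i3).comp k2.measurable
    · exact (Measure.measurable_map _ measurable_i3).comp k3.measurable

/-- the layered process -/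
noncomputable def lay (k0 : Measure J) (k1 : Kernel J E) (k2 : Kernel E G) (k3 : Kernel G G)
    (h0 : k0 univ ≤ 1) (h1 : ∀ j, k1 j univ ≤ 1) (h2 : ∀ e, k2 e univ ≤ 1)
    (h3 : ∀ g, k3 g univ ≤ 1) : LMP L where
  S := LS J E G
  ms := inferInstance
  τ := fun _ => ltau k0 k1 k2 k3
  sub := by
    intro _ s
    rcases s with _ | j | e | g
    · show (k0.map (i1 : J → LS J E G)) univ ≤ 1
      rw [Measure.map_apply measurable_i1 MeasurableSet.univ]
      exact h0
    · show ((k1 j).map (i2 : E → LS J E G)) univ ≤ 1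
      rw [Measure.map_apply measurable_i2 MeasurableSet.univ]
      exact h1 j
    · show ((k2 e).map (i3 : G → LS J E G)) univ ≤ 1
      rw [Measure.map_apply measurable_i3 MeasurableSet.univ]
      exact h2 e
    · show ((k3 g).map (i3 : G → LS J E G)) univ ≤ 1
      rw [Measure.map_apply measurable_i3 MeasurableSet.univ]
      exact h3 g

end

variable {L : Type} {J E G J' E' : Type} [MeasurableSpace J] [MeasurableSpace E]
  [MeasurableSpace G] [MeasurableSpace J'] [MeasurableSpace E']

/-- the layered map -/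
def lmap (f1 : J → J') (f2 : E → E') : LS J E G → LS J' E' G :=
  Sum.map id (Sum.map f1 (Sum.map f2 id))

theorem lay_zigzag (k0 : Measure J) (k1 : Kernel J E) (k2 : Kernel E G) (k3 : Kernel G G)
    (h0 : k0 univ ≤ 1) (h1 : ∀ j, k1 j univ ≤ 1) (h2 : ∀ e, k2 e univ ≤ 1)
    (h3 : ∀ g, k3 g univ ≤ 1) (k0' : Measure J') (k1' : Kernel J' E') (k2' : Kernel E' G)
    (h0' : k0' univ ≤ 1) (h1' : ∀ j, k1' j univ ≤ 1) (h2' : ∀ e, k2' e univ ≤ 1)
    (f1 : J → J') (f2 : E → E') (hf1 : Measurable f1) (hf2 : Measurable f2)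
    (H0 : ∀ D, MeasurableSet D → k0' D = k0 (f1 ⁻¹' D))
    (H1 : ∀ j Q, MeasurableSet Q → k1' (f1 j) Q = k1 j (f2 ⁻¹' Q))
    (H2 : ∀ e, k2' (f2 e) = k2 e) :
    Zigzag (lay L k0 k1 k2 k3 h0 h1 h2 h3) (lay L k0' k1' k2' k3 h0' h1' h2' h3)
      (lmap f1 f2 : LS J E G → LS J' E' G) := by
  have hm : Measurable (lmap f1 f2 : LS J E G → LS J' E' G) :=
    measurable_id.sumMap (hf1.sumMap (hf2.sumMap measurable_id))
  refine ⟨hm, ?_⟩
  intro _ s Q hQ
  have hQ' : MeasurableSet (lmap f1 f2 ⁻¹' Q : Set (LS J E G)) := hm hQ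
  have hQ2 : MeasurableSet (show Set (LS J' E' G) from Q) := hQ
  rcases s with _ | j | e | g
  · show (k0'.map (i1 : J' → LS J' E' G)) Q = (k0.map (i1 : J → LS J E G)) (lmap f1 f2 ⁻¹' Q)
    rw [Measure.map_apply measurable_i1 hQ2, Measure.map_apply measurable_i1 hQ']
    exact H0 _ (measurable_i1 hQ2)
  · show ((k1' (f1 j)).map (i2 : E' → LS J' E' G)) Q =
      ((k1 j).map (i2 : E → LS J E G)) (lmap f1 f2 ⁻¹' Q)
    rw [Measure.map_apply measurable_i2 hQ2, Measure.map_apply measurable_i2 hQ']
    exact H1 j _ (measurable_i2 hQ2)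
  · show ((k2' (f2 e)).map (i3 : G → LS J' E' G)) Q =
      ((k2 e).map (i3 : G → LS J E G)) (lmap f1 f2 ⁻¹' Q)
    rw [Measure.map_apply measurable_i3 hQ2, Measure.map_apply measurable_i3 hQ', H2 e]
    rfl
  · show ((k3 g).map (i3 : G → LS J' E' G)) Q =
      ((k3 g).map (i3 : G → LS J E G)) (lmap f1 f2 ⁻¹' Q)
    rw [Measure.map_apply measurable_i3 hQ2, Measure.map_apply measurable_i3 hQ']
    rfl

end Q224.LM
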