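import Mathlib

/-!
# A partition of the unit interval into continuum many sets of full outer measure
-/

set_option autoImplicit false

open MeasureTheory Set Cardinal

namespace Q224.LM

/-- Injective choice from a family of at most `κ` sets each of size at least `κ`. -/
lemma exists_inj_choice {ι K : Type} (κ : Cardinal.{0}) (hJ : #ι ≤ κ)
    (A : ι → Set K) (hA : ∀ i, κ ≤ #(A i)) :
    ∃ g : ι → K, Function.Injective g ∧ ∀ i, g i ∈ A i := by
  classical
  obtain ⟨lo, wf, hr⟩ := Cardinal.exists_ord_eq_type_lt ι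
  have key : ∀ (j : ι) (f : ∀ k, k < j → K), ∃ x ∈ A j, ∀ k (h : k < j), f k h ≠ x := by
    intro j f
    by_contra hcon
    push Not at hcon
    have h1 : #(A j) ≤ #(Iio j) := by
      have hsub : A j ⊆ range (fun k : Iio j => f k.1 k.2) := by
        intro x hx
        obtain ⟨k, h, hk⟩ := hcon x hx
        exact ⟨⟨k, h⟩, hk⟩
      exact (Cardinal.mk_le_mk_of_subset hsub).trans Cardinal.mk_range_le
    exact absurd (((hA j).trans h1).trans_lt (Cardinal.mk_Iio_lt j hr)) (not_lt.mpr hJ)
  choose F hF1 hF2 using key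
  have wf' : WellFounded ((· < ·) : ι → ι → Prop) := wf.wf
  let g : ι → K := wf'.fix F
  have hg : ∀ j, g j = F j (fun k _ => g k) := fun j => wf'.fix_eq F j
  refine ⟨g, ?_, ?_⟩
  · intro a b hab
    rcases lt_trichotomy a b with h | h | h
    · exact absurd hab (by rw [hg b]; exact hF2 b (fun k _ => g k) a h)
    · exact h
    · exact absurd hab.symm (by rw [hg a]; exact hF2 a (fun k _ => g k) b h)
  · intro i; rw [hg i]; exact hF1 i _

theorem singleton_null (x : unitInterval) : (volume : Measure unitInterval) {x} = 0 := by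
  have h : (volume : Measure unitInterval) {x} = (volume : Measure ℝ) (Subtype.val '' {x}) := by
    rw [Measure.Subtype.volume_def]
    exact comap_subtype_coe_apply measurableSet_Icc _ _
  rw [h, image_singleton]
  simp

theorem countable_null {N : Set unitInterval} (hN : N.Countable) :
    (volume : Measure unitInterval) N = 0 := by
  have h : N = ⋃ x ∈ N, {x} := by simp
  rw [h]
  exact (measure_biUnion_null_iff hN).2 (fun x _ => singleton_null x)

theorem perfects_card : #{P : Set unitInterval // Perfect P ∧ P.Nonempty} ≤ 𝔠 := by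
  classical
  let ι := {P : Set unitInterval // Perfect P ∧ P.Nonempty}
  let B := TopologicalSpace.countableBasis unitInterval
  have hBc : B.Countable := TopologicalSpace.countable_countableBasis unitInterval
  have hB := TopologicalSpace.isBasis_countableBasis unitInterval
  let φ : ι → Set B := fun P => {b | (b : Set unitInterval) ∩ P.1 = ∅}
  have hsub : ∀ P Q : ι, φ P = φ Q → P.1 ⊆ Q.1 := by
    intro P Q h x hx
    by_contra hxQ
    obtain ⟨b, hb, hxb, hbQ⟩ := hB.exists_subset_of_mem_open (a := x) (u := Q.1ᶜ) hxQ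
      Q.2.1.closed.isOpen_compl
    have h1 : (⟨b, hb⟩ : B) ∈ φ Q := by
      change b ∩ Q.1 = ∅
      rw [← Set.disjoint_iff_inter_eq_empty, Set.disjoint_left]
      exact fun y hy hyQ => hbQ hy hyQ
    rw [← h] at h1
    have h2 : b ∩ P.1 = ∅ := h1
    have : x ∈ b ∩ P.1 := ⟨hxb, hx⟩
    rw [h2] at this
    exact this
  have hφ : Function.Injective φ := by
    intro P Q h
    exact Subtype.ext (Subset.antisymm (hsub P Q h) (hsub Q P h.symm))
  have h3 : #(Set B) ≤ 𝔠 := by
    rw [Cardinal.mk_set]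
    have hB' : #B ≤ ℵ₀ := Cardinal.mk_le_aleph0_iff.mpr hBc.to_subtype
    calc (2 : Cardinal.{0}) ^ #B ≤ 2 ^ ℵ₀ := Cardinal.power_le_power_left two_ne_zero hB'
      _ = 𝔠 := two_power_aleph0
  exact (Cardinal.mk_le_of_injective hφ).trans h3

theorem exists_part (H : Type) (hH : #H ≤ 𝔠) [Nonempty H] : ∃ c : unitInterval → H,
    ∀ (h : H) (A N : Set unitInterval), MeasurableSet A → N.Countable →
      (∀ r, c r = h → r ∈ A → r ∈ N) → (volume : Measure unitInterval) A = 0 := by
  classical
  let ι := {P : Set unitInterval // Perfect P ∧ P.Nonempty}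
  have hJ : #(ι × H) ≤ 𝔠 := by
    rw [Cardinal.mk_prod, Cardinal.lift_id, Cardinal.lift_id]
    calc #ι * #H ≤ 𝔠 * 𝔠 := mul_le_mul' perfects_card hH
      _ = 𝔠 := Cardinal.continuum_mul_self
  have hA : ∀ i : ι × H, 𝔠 ≤ #(i.1.1 : Set unitInterval) := by
    rintro ⟨P, h⟩
    obtain ⟨f, hf1, -, hf3⟩ := P.2.1.exists_nat_bool_injection P.2.2
    have : #(ℕ → Bool) ≤ #(P.1 : Set unitInterval) := by
      refine Cardinal.mk_le_of_injective (f := fun x => (⟨f x, hf1 ⟨x, rfl⟩⟩ : P.1)) ?_
      intro x y h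
      exact hf3 (congrArg Subtype.val h)
    refine le_trans (le_of_eq ?_) this
    simp
  obtain ⟨g, hg1, hg2⟩ := exists_inj_choice 𝔠 hJ (fun i => i.1.1) hA
  refine ⟨fun r => if h : ∃ i, g i = r then (Classical.choose h).2 else Classical.arbitrary H, ?_⟩
  intro h A N hAm hN hAN
  by_contra hpos
  have h1 : 0 < (volume : Measure unitInterval) (A \ N) := by
    rw [measure_diff_null (countable_null hN)]
    exact pos_iff_ne_zero.2 hpos
  obtain ⟨K, hK1, hK2, hK3⟩ := (hAm.diff hN.measurableSet).exists_lt_isCompact h1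
  have hKc : ¬ K.Countable := fun hc => by
    rw [countable_null hc] at hK3
    exact lt_irrefl _ hK3
  obtain ⟨D, hD1, hD2, hD3⟩ := exists_perfect_nonempty_of_isClosed_of_not_countable
    hK2.isClosed hKc
  have hr := hg2 (⟨D, hD1, hD2⟩, h)
  have hex : ∃ i, g i = g (⟨D, hD1, hD2⟩, h) := ⟨_, rfl⟩
  have hc : Classical.choose hex = (⟨D, hD1, hD2⟩, h) := hg1 (Classical.choose_spec hex)
  have h2 := hK1 (hD3 hr)
  refine h2.2 (hAN _ ?_ h2.1)
  show (if h : ∃ i, g i = g (⟨D, hD1, hD2⟩, h) then (Classical.choose h).2 else _) = h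
  rw [dif_pos hex, hc]

end Q224.LM
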