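import Pool.Agent.Q224.LM.Coin
import Pool.Agent.Q224.LM.Part
import Pool.Agent.Q224.LM.Lay

/-!
# The two labelled Markov processes and the span
-/

set_option autoImplicit false

open MeasureTheory ProbabilityTheory Set Cardinal

namespace Q224.LM

/-- the base of the two processes -/
def YI : SId := SId.ctbl W1 W1_unc

/-- the base of the span -/
def YZI : SId := SId.two W1 W1 W1_unc W1_unc

/-- the coins which are flipped at `p` -/
noncomputable def dl (p : W1 × W1) (b : Idx) : Bool := by
  classical
  exact decide (p ∈ b.1)

theorem dl_iff (p : W1 × W1) (b : Idx) : dl p b = true ↔ p ∈ b.1 := by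
  unfold dl
  simp

theorem coin_flip_apply (δ : Idx → Bool) {A : Set (Idx → Bool)} (hA : MeasurableSet A) :
    coin (flip δ ⁻¹' A) = coin A := by
  conv_rhs => rw [← coin_flip δ]
  rw [Measure.map_apply (measurable_flip δ) hA]

/-- the second layer of the left process -/
noncomputable def F2 : Fib where
  I := YI
  E := W1 × Om
  X := Idx → Bool
  msX := inferInstance
  P := coin
  prob := inferInstance
  K := W1 × Om
  π := Prod.fst
  ξ := fun e => xi e.2
  h := id
  thick := by
    intro j A N hA hN h
    have : A = ∅ := by
      by_contra hne
      rw [← Ne, ← nonempty_iff_ne_empty] at hne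
      rw [image_id] at hN
      obtain ⟨ω, hω, hω2⟩ := thick0 hA hne {ω | (j, ω) ∈ N} (by
        refine Set.Countable.preimage_of_injOn hN ?_
        intro x _ y _ hxy
        exact (Prod.ext_iff.1 hxy).2)
      exact hω (h (j, ω) rfl hω2)
    subst this
    exact measure_empty

/-- the second layer of the right process -/
noncomputable def F2' : Fib where
  I := YI
  E := W1 × Om × W1
  X := Idx → Bool
  msX := inferInstance
  P := coin
  prob := inferInstance
  K := W1 × Om
  π := Prod.fst
  ξ := fun e => flip (dl (e.1, e.2.2)) (xi e.2.1)
  h := fun e => (e.1, e.2.1)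
  thick := by
    intro j A N hA hN h
    have z : W1 := Classical.arbitrary W1
    have h1 : flip (dl (j, z)) ⁻¹' A = ∅ := by
      by_contra hne
      rw [← Ne, ← nonempty_iff_ne_empty] at hne
      obtain ⟨ω, hω, hω2⟩ := thick0 (measurable_flip (dl (j, z)) hA) hne
        {ω | (j, ω) ∈ (fun e : W1 × Om × W1 => (e.1, e.2.1)) '' N} (by
        refine Set.Countable.preimage_of_injOn hN ?_
        intro x _ y _ hxy
        exact (Prod.ext_iff.1 hxy).2)
      exact hω ⟨(j, ω, z), h (j, ω, z) rfl hω2, rfl⟩
    show coin A = 0
    rw [← coin_flip_apply (dl (j, z)) hA, h1]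
    exact measure_empty

/-- the second layer of the span -/
noncomputable def FT : Fib where
  I := YZI
  E := W1 × Om × W1
  X := Idx → Bool
  msX := inferInstance
  P := coin
  prob := inferInstance
  K := W1 × Om
  π := fun e => (e.1, e.2.2)
  ξ := fun e => xi e.2.1
  h := fun e => (e.1, e.2.1)
  thick := by
    intro j A N hA hN h
    have h1 : A = ∅ := by
      by_contra hne
      rw [← Ne, ← nonempty_iff_ne_empty] at hne
      obtain ⟨ω, hω, hω2⟩ := thick0 hA hne
        {ω | (j.1, ω) ∈ (fun e : W1 × Om × W1 => (e.1, e.2.1)) '' N} (by
        refine Set.Countable.preimage_of_injOn hN ?_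
        intro x _ y _ hxy
        exact (Prod.ext_iff.1 hxy).2)
      exact hω ⟨(j.1, ω, j.2), h (j.1, ω, j.2) rfl hω2, rfl⟩
    subst h1
    exact measure_empty

theorem H_unc : ¬ (univ : Set (W1 × Om)).Countable := by
  intro h
  apply W1_unc
  have ω : Om := (fun _ => (Classical.arbitrary _, Classical.arbitrary _), fun _ _ => True,
      fun _ => True)
  refine (Set.Countable.preimage_of_injOn (f := fun y : W1 => (y, ω)) h ?_).mono
    (fun _ _ => mem_univ _)
  intro x _ y _ hxy
  exact (Prod.ext_iff.1 hxy).1

/-- the base of the third layer -/
def HI : SId := SId.ctbl (W1 × Om) H_unc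

instance : Nonempty (W1 × Om) :=
  ⟨(Classical.arbitrary W1, (fun _ => (Classical.arbitrary _, Classical.arbitrary _),
    fun _ _ => True, fun _ => True))⟩

/-- the colouring of the unit interval -/
noncomputable def cc : unitInterval → W1 × Om := Classical.choose (exists_part (W1 × Om) Om_card)

theorem cc_spec : ∀ (h : W1 × Om) (A N : Set unitInterval), MeasurableSet A → N.Countable →
      (∀ r, cc r = h → r ∈ A → r ∈ N) → (volume : Measure unitInterval) A = 0 :=
  Classical.choose_spec (exists_part (W1 × Om) Om_card)

/-- the third layer -/
noncomputable def F3 : Fib where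
  I := HI
  E := unitInterval
  X := unitInterval
  msX := inferInstance
  P := volume
  prob := inferInstance
  K := unitInterval
  π := cc
  ξ := id
  h := id
  thick := by
    intro j A N hA hN h
    rw [image_id] at hN
    exact cc_spec j A N hA hN h

/-- the mass of a point of the third layer -/
noncomputable def mass (r : F3.E) : ENNReal := ENNReal.ofReal (show unitInterval from r).1

theorem measurable_mass : Measurable mass := by
  have h1 : Measurable (F3.ξ) := by
    intro A hA
    exact F3.measurableSet_coord hA
  have h2 : Measurable (fun r : unitInterval => ENNReal.ofReal r.1) :=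
    ENNReal.measurable_ofReal.comp measurable_subtype_coe
  exact h2.comp h1

theorem mass_le (r : F3.E) : mass r ≤ 1 := by
  unfold mass
  exact ENNReal.ofReal_le_one.2 (show unitInterval from r).2.2

theorem mass_inj : Function.Injective mass := by
  intro r s h
  unfold mass at h
  have := (ENNReal.ofReal_eq_ofReal_iff (show unitInterval from r).2.1
    (show unitInterval from s).2.1).1 h
  exact Subtype.ext this

/-- the kernel of the third layer -/
noncomputable def k3 : Kernel F3.E F3.E where
  toFun := fun r => mass r • Measure.dirac r
  measurable' := by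
    refine Measure.measurable_of_measurable_coe _ ?_
    intro Q hQ
    have h : (fun r : F3.E => (mass r • Measure.dirac r) Q) =
        fun r => mass r * Q.indicator 1 r := by
      funext r
      rw [Measure.smul_apply, Measure.dirac_apply' r hQ, smul_eq_mul]
    rw [h]
    exact measurable_mass.mul (measurable_one.indicator hQ)

theorem k3_univ (r : F3.E) : k3 r univ = mass r := by
  show (mass r • Measure.dirac r) univ = mass r
  rw [Measure.smul_apply, measure_univ, smul_eq_mul, mul_one]

/-- the map to the base of the third layer is measurable -/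
theorem measurable_toH (F : Fib) (g : F.E → F3.I.J)
    (hsm : ∀ D : Set F3.I.J, D.Countable → F.I.small (F.π '' (g ⁻¹' D)))
    (hh : ∀ D : Set F3.I.J, D.Countable → (F.h '' (g ⁻¹' D)).Countable) : Measurable g := by
  have key : ∀ D : Set F3.I.J, D.Countable → MeasurableSet (g ⁻¹' D) := by
    intro D hD
    refine ⟨⟨∅, MeasurableSet.empty, F.π '' (g ⁻¹' D), hsm D hD, ?_⟩, ?_⟩
    · intro e he
      simp only [mem_preimage, mem_empty_iff_false, iff_false]
      intro h
      exact he ⟨e, h, rfl⟩
    · intro j
      refine ⟨∅, MeasurableSet.empty, g ⁻¹' D, hh D hD, ?_⟩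
      intro e _ he
      simp only [mem_empty_iff_false, iff_false]
      exact he
  intro D hD
  rcases hD with h | h
  · exact key D h
  · have := (key Dᶜ h).compl
    rwa [preimage_compl, compl_compl] at this

end Q224.LM
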