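import Mathlib

/-!
# Labelled Markov processes, span bisimilarity and coalgebraic bisimilarity

No topological, separability or standard Borel assumption is made.
-/

set_option autoImplicit false

open MeasureTheory ProbabilityTheory

namespace Q224.LM

/-- A labelled Markov process over the label set `L`: a measurable space of states and, for every
label, a kernel of subprobability measures on it. -/
structure LMP (L : Type) where
  /-- the states -/
  S : Type
  /-- the σ-algebra on the states -/
  ms : MeasurableSpace S
  /-- the kernels -/
  τ : L → @Kernel S S ms ms
  /-- the measures `τ a s` are subprobability measures -/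
  sub : ∀ (a : L) (s : S), (τ a s) Set.univ ≤ 1

attribute [instance] LMP.ms

/-- A zigzag morphism (surjectivity is not required). -/
def Zigzag {L : Type} (A B : LMP L) (f : A.S → B.S) : Prop :=
  Measurable f ∧
    ∀ (a : L) (s : A.S) (E : Set B.S), MeasurableSet E → B.τ a (f s) E = A.τ a s (f ⁻¹' E)

/-- Span bisimilarity of a state of `A` and a state of `B`. -/
def SpanBisim {L : Type} (A B : LMP L) (s : A.S) (s' : B.S) : Prop :=
  ∃ (T : LMP L) (f : T.S → A.S) (g : T.S → B.S) (t : T.S),
    Zigzag T A f ∧ Zigzag T B g ∧ f t = s ∧ g t = s'

/-- A coalgebraic bisimulation: a relation `R` between the states of `A` and `B`, with a labelled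
Markov process whose states are the pairs in `R` (an arbitrary σ-algebra on `R` and arbitrary
kernels), such that both projections are zigzag morphisms. -/
structure CoalgBisim {L : Type} (A B : LMP L) where
  /-- the relation -/
  R : Set (A.S × B.S)
  /-- the σ-algebra on the relation -/
  ms : MeasurableSpace R
  /-- the kernels on the relation -/
  τ : L → @Kernel R R ms ms
  /-- the measures `τ a r` are subprobability measures -/
  sub : ∀ (a : L) (r : R), (τ a r) Set.univ ≤ 1
  /-- the first projection is a zigzag morphism -/
  left : Zigzag (LMP.mk R ms τ sub) A (fun r => r.1.1)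
  /-- the second projection is a zigzag morphism -/
  right : Zigzag (LMP.mk R ms τ sub) B (fun r => r.1.2)

/-- Coalgebraic bisimilarity of a state of `A` and a state of `B`. -/
def DeltaBisim {L : Type} (A B : LMP L) (s : A.S) (s' : B.S) : Prop :=
  ∃ Q : CoalgBisim A B, (s, s') ∈ Q.R

end Q224.LM
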