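import Mathlib

/-!
# Zero-one base spaces and fibred measurable spaces
-/

set_option autoImplicit false

open MeasureTheory ProbabilityTheory Set

namespace Q224.LM

/-- a set with a proper σ-ideal containing the singletons -/
structure SId where
  J : Type
  small : Set J → Prop
  empty : small ∅
  mono : ∀ {A B : Set J}, A ⊆ B → small B → small A
  iUnion : ∀ f : ℕ → Set J, (∀ n, small (f n)) → small (⋃ n, f n)
  single : ∀ j, small {j}
  proper : ¬ small univ

namespace SId

variable (I : SId)

theorem union {A B : Set I.J} (hA : I.small A) (hB : I.small B) : I.small (A ∪ B) := by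
  have h := I.iUnion (fun n => if n = 0 then A else B) (fun n => by
    show I.small (if n = 0 then A else B)
    split_ifs <;> assumption)
  refine I.mono ?_ h
  rintro x (hx | hx)
  · exact mem_iUnion.2 ⟨0, by simpa using hx⟩
  · exact mem_iUnion.2 ⟨1, by simpa using hx⟩

/-- the σ-algebra of small and co-small sets -/
instance instBase : MeasurableSpace I.J where
  MeasurableSet' D := I.small D ∨ I.small Dᶜ
  measurableSet_empty := Or.inl I.empty
  measurableSet_compl D h := by
    rcases h with h | h
    · right; rwa [compl_compl]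
    · left; exact h
  measurableSet_iUnion f h := by
    by_cases hc : ∃ n, I.small (f n)ᶜ
    · right
      obtain ⟨n, hn⟩ := hc
      refine I.mono ?_ hn
      exact compl_subset_compl.2 (subset_iUnion f n)
    · left
      push Not at hc
      exact I.iUnion f (fun n => (h n).resolve_right (hc n))

theorem measurableSet_iff (D : Set I.J) :
    MeasurableSet D ↔ (I.small D ∨ I.small Dᶜ) := Iff.rfl

open Classical in
/-- the zero-one measure -/
noncomputable def mu : Measure I.J :=
  Measure.ofMeasurable (fun D _ => if I.small D then 0 else 1)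
    (by
      show (if I.small ∅ then (0 : ENNReal) else 1) = 0
      rw [if_pos I.empty])
    (by
      intro f hf hd
      show (if I.small (⋃ i, f i) then (0 : ENNReal) else 1) = ∑' i, (if I.small (f i) then 0 else 1)
      by_cases hall : ∀ n, I.small (f n)
      · rw [if_pos (I.iUnion f hall)]
        symm
        rw [ENNReal.tsum_eq_zero]
        intro i
        rw [if_pos (hall i)]
      · push Not at hall
        obtain ⟨n, hn⟩ := hall
        have hnc : I.small (f n)ᶜ := (hf n).resolve_left hn
        rw [if_neg (fun h => hn (I.mono (subset_iUnion f n) h))]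
        symm
        rw [tsum_eq_single n, if_neg hn]
        intro m hm
        rw [if_pos]
        refine I.mono ?_ hnc
        intro x hx hx'
        exact (Set.disjoint_left.1 (hd hm)) hx hx')

open Classical in
theorem mu_apply {D : Set I.J} (hD : MeasurableSet D) :
    I.mu D = if I.small D then 0 else 1 := by
  unfold mu
  exact Measure.ofMeasurable_apply D hD

theorem mu_univ : I.mu univ = 1 := by
  classical
  rw [I.mu_apply MeasurableSet.univ, if_neg I.proper]

theorem mu_small {D : Set I.J} (h : I.small D) : I.mu D = 0 := by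
  classical
  rw [I.mu_apply (Or.inl h), if_pos h]

/-- a function which is constant off a small set is measurable -/
theorem measurable_of_const {Y : Type*} [MeasurableSpace Y] (φ : I.J → Y) (B : Set I.J)
    (hB : I.small B) (c : Y) (h : ∀ j, j ∉ B → φ j = c) : Measurable φ := by
  intro S _
  rw [I.measurableSet_iff]
  by_cases hc : c ∈ S
  · right
    refine I.mono ?_ hB
    intro j hj
    by_contra hjB
    exact hj (by show φ j ∈ S; rw [h j hjB]; exact hc)
  · left
    refine I.mono ?_ hB
    intro j hj
    by_contra hjB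
    apply hc
    have : φ j ∈ S := hj
    rwa [h j hjB] at this

/-- the base maps for which small sets pull back to small sets -/
theorem measurable_map {I I' : SId} (f : I.J → I'.J)
    (hf : ∀ D, I'.small D → I.small (f ⁻¹' D)) : Measurable f := by
  intro D hD
  rcases hD with h | h
  · exact Or.inl (hf D h)
  · exact Or.inr (hf Dᶜ h)

theorem mu_map {I I' : SId} (f : I.J → I'.J)
    (hf : ∀ D, I'.small D → I.small (f ⁻¹' D)) {D : Set I'.J} (hD : MeasurableSet D) :
    I'.mu D = I.mu (f ⁻¹' D) := by
  classical
  rw [I'.mu_apply hD, I.mu_apply (measurable_map f hf hD)]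
  by_cases h : I'.small D
  · rw [if_pos h, if_pos (hf D h)]
  · have h1 := hD.resolve_left h
    have h2 : ¬ I.small (f ⁻¹' D) := by
      intro h3
      apply I.proper
      have := I.union h3 (hf _ h1)
      rwa [preimage_compl, union_compl_self] at this
    rw [if_neg h, if_neg h2]

/-- the σ-ideal of the countable sets -/
def ctbl (W : Type) (h : ¬ (univ : Set W).Countable) : SId where
  J := W
  small := Set.Countable
  empty := countable_empty
  mono := fun h hB => hB.mono h
  iUnion := fun _ hf => countable_iUnion hf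
  single := fun j => countable_singleton j
  proper := h

/-- sets of pairs almost all of whose fibres are countable -/
def Sm {Y Z : Type} (B : Set (Y × Z)) : Prop := {y | ¬ {z | (y, z) ∈ B}.Countable}.Countable

/-- the σ-ideal of the sets of pairs almost all of whose fibres are countable -/
def two (Y Z : Type) (hY : ¬ (univ : Set Y).Countable) (hZ : ¬ (univ : Set Z).Countable) :
    SId where
  J := Y × Z
  small := Sm
  empty := by
    have : {y : Y | ¬ {z : Z | (y, z) ∈ (∅ : Set (Y × Z))}.Countable} = ∅ := by
      ext y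
      simp
    unfold Sm
    rw [this]
    exact countable_empty
  mono := by
    intro A B h hB
    refine hB.mono ?_
    intro y hy hc
    exact hy (hc.mono (fun z hz => h hz))
  iUnion := by
    intro f hf
    refine (countable_iUnion hf).mono ?_
    intro y hy
    by_contra hcon
    apply hy
    have h1 : ∀ n, {z | (y, z) ∈ f n}.Countable := by
      intro n
      by_contra hn
      exact hcon (mem_iUnion.2 ⟨n, hn⟩)
    refine (countable_iUnion h1).mono ?_
    intro z hz
    obtain ⟨n, hn⟩ := mem_iUnion.1 hz
    exact mem_iUnion.2 ⟨n, hn⟩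
  single := by
    intro p
    have : {y | ¬ {z | (y, z) ∈ ({p} : Set (Y × Z))}.Countable} = ∅ := by
      ext y
      simp only [mem_ofPred_eq, mem_empty_iff_false, iff_false, not_not]
      refine (countable_singleton p.2).mono ?_
      intro z hz
      have : (y, z) = p := hz
      rw [← this]
      rfl
    unfold Sm
    rw [this]
    exact countable_empty
  proper := by
    intro h
    apply hY
    refine h.mono ?_
    intro y _ hc
    exact hZ (hc.mono (fun z _ => mem_univ _))

theorem Sm_prod {Y Z : Type} {C : Set Y} (hC : C.Countable) : Sm {p : Y × Z | p.1 ∈ C} := by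
  refine hC.mono ?_
  intro y hy
  by_contra hc
  apply hy
  have : {z : Z | (y, z) ∈ {p : Y × Z | p.1 ∈ C}} = ∅ := by
    ext z
    simp [hc]
  rw [this]
  exact countable_empty

end SId

/-- a fibred space over a zero-one base -/
structure Fib where
  I : SId
  E : Type
  X : Type
  msX : MeasurableSpace X
  P : @Measure X msX
  prob : @IsProbabilityMeasure X msX P
  K : Type
  π : E → I.J
  ξ : E → X
  h : E → K
  thick : ∀ (j : I.J) (A : Set X) (N : Set E), @MeasurableSet X msX A → (h '' N).Countable →
    (∀ e, π e = j → ξ e ∈ A → e ∈ N) → @Measure.toOuterMeasure X msX P A = 0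

attribute [instance] Fib.msX Fib.prob

namespace Fib

variable (F : Fib)

/-- `A` represents `Q` on the fibre over `j` -/
def Rep (j : F.I.J) (Q : Set F.E) (A : Set F.X) : Prop :=
  ∃ N : Set F.E, (F.h '' N).Countable ∧ ∀ e, F.π e = j → e ∉ N → (e ∈ Q ↔ F.ξ e ∈ A)

theorem Rep.compl {j : F.I.J} {Q : Set F.E} {A : Set F.X} (h : F.Rep j Q A) :
    F.Rep j Qᶜ Aᶜ := by
  obtain ⟨N, hN, h⟩ := h
  exact ⟨N, hN, fun e he hn => not_congr (h e he hn)⟩

theorem Rep.iUnion {j : F.I.J} {Q : ℕ → Set F.E} {A : ℕ → Set F.X} (h : ∀ n, F.Rep j (Q n) (A n)) :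
    F.Rep j (⋃ n, Q n) (⋃ n, A n) := by
  choose N hN h using h
  refine ⟨⋃ n, N n, ?_, ?_⟩
  · rw [image_iUnion]
    exact countable_iUnion hN
  · intro e he hn
    rw [mem_iUnion, mem_iUnion]
    refine exists_congr fun n => h n e he ?_
    intro h'
    exact hn (mem_iUnion.2 ⟨n, h'⟩)

theorem Rep.measure_eq {j : F.I.J} {Q : Set F.E} {A A' : Set F.X} (hA : MeasurableSet A)
    (hA' : MeasurableSet A') (h : F.Rep j Q A) (h' : F.Rep j Q A') : F.P A = F.P A' := by
  obtain ⟨N, hN, h⟩ := h
  obtain ⟨N', hN', h'⟩ := h'
  have key : ∀ (B B' : Set F.X), MeasurableSet B → MeasurableSet B' →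
      (∀ e, F.π e = j → e ∉ N ∪ N' → (F.ξ e ∈ B ↔ F.ξ e ∈ B')) → F.P (B \ B') = 0 := by
    intro B B' hB hB' hBB
    refine F.thick j (B \ B') (N ∪ N') (hB.diff hB') ?_ ?_
    · rw [image_union]
      exact hN.union hN'
    · intro e he hx
      by_contra hn
      exact hx.2 ((hBB e he hn).1 hx.1)
  have hcc : ∀ e, F.π e = j → e ∉ N ∪ N' → (F.ξ e ∈ A ↔ F.ξ e ∈ A') := by
    intro e he hn
    rw [← h e he (fun hx => hn (Or.inl hx)), ← h' e he (fun hx => hn (Or.inr hx))]
  have h1 := key A A' hA hA' hcc
  have h2 := key A' A hA' hA (fun e he hn => (hcc e he hn).symm)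
  refine le_antisymm ?_ ?_
  · calc F.P A ≤ F.P (A' ∪ (A \ A')) := measure_mono (by
          intro x hx
          by_cases hx' : x ∈ A'
          · exact Or.inl hx'
          · exact Or.inr ⟨hx, hx'⟩)
      _ ≤ F.P A' + F.P (A \ A') := measure_union_le _ _
      _ = F.P A' := by rw [h1, add_zero]
  · calc F.P A' ≤ F.P (A ∪ (A' \ A)) := measure_mono (by
          intro x hx
          by_cases hx' : x ∈ A
          · exact Or.inl hx'
          · exact Or.inr ⟨hx, hx'⟩)
      _ ≤ F.P A + F.P (A' \ A) := measure_union_le _ _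
      _ = F.P A := by rw [h2, add_zero]

/-- the σ-algebra of the total space -/
instance instTot : MeasurableSpace F.E where
  MeasurableSet' Q := (∃ A : Set F.X, MeasurableSet A ∧ ∃ B : Set F.I.J, F.I.small B ∧
      ∀ e, F.π e ∉ B → (e ∈ Q ↔ F.ξ e ∈ A)) ∧
    ∀ j, ∃ A : Set F.X, MeasurableSet A ∧ F.Rep j Q A
  measurableSet_empty := by
    refine ⟨⟨∅, MeasurableSet.empty, ∅, F.I.empty, ?_⟩, ?_⟩
    · intro e _
      simp
    · intro j
      exact ⟨∅, MeasurableSet.empty, ∅, by simp, by simp⟩
  measurableSet_compl Q hQ := by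
    obtain ⟨⟨A, hA, B, hB, h⟩, h2⟩ := hQ
    refine ⟨⟨Aᶜ, hA.compl, B, hB, fun e he => not_congr (h e he)⟩, ?_⟩
    intro j
    obtain ⟨A, hA, hr⟩ := h2 j
    exact ⟨Aᶜ, hA.compl, hr.compl⟩
  measurableSet_iUnion Q hQ := by
    refine ⟨?_, ?_⟩
    · choose A hA B hB h using fun n => (hQ n).1
      refine ⟨⋃ n, A n, MeasurableSet.iUnion hA, ⋃ n, B n, F.I.iUnion _ hB, ?_⟩
      intro e he
      rw [mem_iUnion, mem_iUnion]
      refine exists_congr fun n => h n e ?_
      intro h'
      exact he (mem_iUnion.2 ⟨n, h'⟩)
    · intro j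
      choose A hA h using fun n => (hQ n).2 j
      exact ⟨⋃ n, A n, MeasurableSet.iUnion hA, Rep.iUnion F h⟩

theorem measurableSet_iff (Q : Set F.E) : MeasurableSet Q ↔
    (∃ A : Set F.X, MeasurableSet A ∧ ∃ B : Set F.I.J, F.I.small B ∧
      ∀ e, F.π e ∉ B → (e ∈ Q ↔ F.ξ e ∈ A)) ∧
    ∀ j, ∃ A : Set F.X, MeasurableSet A ∧ F.Rep j Q A := Iff.rfl

/-- the trace measure on a fibre -/
noncomputable def fm (j : F.I.J) : Measure F.E :=
  Measure.ofMeasurable (fun Q hQ => F.P (Classical.choose (hQ.2 j)))
    (by
      have hQ : MeasurableSet (∅ : Set F.E) := MeasurableSet.empty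
      have h := Classical.choose_spec (hQ.2 j)
      have h0 : F.Rep j (∅ : Set F.E) (∅ : Set F.X) := ⟨∅, by simp, by simp⟩
      have := Rep.measure_eq F h.1 MeasurableSet.empty h.2 h0
      rw [measure_empty] at this
      exact this)
    (by
      intro Q hQ hd
      have h := fun n => Classical.choose_spec ((hQ n).2 j)
      have hU : MeasurableSet (⋃ n, Q n) := MeasurableSet.iUnion hQ
      have hc := Classical.choose_spec (hU.2 j)
      have h1 : F.P (Classical.choose (hU.2 j)) = F.P (⋃ n, Classical.choose ((hQ n).2 j)) :=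
        Rep.measure_eq F hc.1 (MeasurableSet.iUnion (fun n => (h n).1)) hc.2
          (Rep.iUnion F (fun n => (h n).2))
      show F.P (Classical.choose (hU.2 j)) = ∑' n, F.P (Classical.choose ((hQ n).2 j))
      rw [h1]
      refine measure_iUnion₀ ?_ (fun n => (h n).1.nullMeasurableSet)
      intro n m hnm
      obtain ⟨N, hN, hn⟩ := (h n).2
      obtain ⟨N', hN', hm⟩ := (h m).2
      refine F.thick j _ (N ∪ N') ((h n).1.inter (h m).1) ?_ ?_
      · rw [image_union]
        exact hN.union hN'
      · intro e he hx
        by_contra hcon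
        have h3 := (hn e he (fun hx => hcon (Or.inl hx))).2 hx.1
        have h4 := (hm e he (fun hx => hcon (Or.inr hx))).2 hx.2
        exact (Set.disjoint_left.1 (hd hnm)) h3 h4)

theorem fm_apply {j : F.I.J} {Q : Set F.E} (hQ : MeasurableSet Q) {A : Set F.X}
    (hA : MeasurableSet A) (h : F.Rep j Q A) : F.fm j Q = F.P A := by
  unfold fm
  rw [Measure.ofMeasurable_apply Q hQ]
  have h' := Classical.choose_spec (hQ.2 j)
  exact Rep.measure_eq F h'.1 hA h'.2 h

theorem fm_univ (j : F.I.J) : F.fm j univ = 1 := by
  rw [F.fm_apply MeasurableSet.univ MeasurableSet.univ (j := j)]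
  · exact measure_univ
  · exact ⟨∅, by simp, by simp⟩

/-- the kernel from the base to the total space -/
noncomputable def ker : Kernel F.I.J F.E where
  toFun := F.fm
  measurable' := by
    refine Measure.measurable_of_measurable_coe _ ?_
    intro Q hQ
    obtain ⟨A, hA, B, hB, h⟩ := hQ.1
    refine F.I.measurable_of_const _ B hB (F.P A) ?_
    intro j hj
    refine F.fm_apply hQ hA ⟨∅, by simp, ?_⟩
    intro e he _
    exact h e (by rw [he]; exact hj)

theorem ker_apply (j : F.I.J) : F.ker j = F.fm j := rfl

/-- fibres are measurable -/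
theorem measurableSet_fibre (j : F.I.J) : MeasurableSet {e : F.E | F.π e = j} := by
  refine ⟨⟨∅, MeasurableSet.empty, {j}, F.I.single j, ?_⟩, ?_⟩
  · intro e he
    simp only [mem_ofPred_eq, mem_empty_iff_false, iff_false]
    exact he
  · intro i
    by_cases h : i = j
    · exact ⟨univ, MeasurableSet.univ, ∅, by simp, fun e he _ => by simp [he, h]⟩
    · refine ⟨∅, MeasurableSet.empty, ∅, by simp, fun e he _ => ?_⟩
      simp only [mem_ofPred_eq, mem_empty_iff_false, iff_false]
      rw [he]
      exact h

theorem fm_fibre (j : F.I.J) : F.fm j {e | F.π e = j} = 1 := by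
  rw [F.fm_apply (F.measurableSet_fibre j) MeasurableSet.univ (j := j)]
  · exact measure_univ
  · exact ⟨∅, by simp, fun e he _ => by simp [he]⟩

theorem fm_fibre_ne {i j : F.I.J} (hij : i ≠ j) : F.fm i {e | F.π e = j} = 0 := by
  rw [F.fm_apply (F.measurableSet_fibre j) MeasurableSet.empty (j := i)]
  · exact measure_empty
  · refine ⟨∅, by simp, fun e he _ => ?_⟩
    simp only [mem_ofPred_eq, mem_empty_iff_false, iff_false]
    rw [he]
    exact hij

theorem fm_injective : Function.Injective F.fm := by
  intro i j h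
  by_contra hij
  have h1 := F.fm_fibre_ne (i := i) (j := j) hij
  rw [h, F.fm_fibre j] at h1
  exact one_ne_zero h1

/-- coordinates are measurable -/
theorem measurableSet_coord {A : Set F.X} (hA : MeasurableSet A) :
    MeasurableSet (F.ξ ⁻¹' A) := by
  refine ⟨⟨A, hA, ∅, F.I.empty, fun e _ => Iff.rfl⟩, fun j => ⟨A, hA, ∅, by simp, fun e _ _ => Iff.rfl⟩⟩

end Fib

end Q224.LM
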