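import Pool.Agent.Q224.LM.No

/-!
# The end of the argument
-/

set_option autoImplicit false

open MeasureTheory ProbabilityTheory Set Cardinal

namespace Q224.LM

/-- the third coordinate of a state of the second layer of the right process -/
noncomputable def zeta : LS F2'.I.J F2'.E F3.E → W1 :=
  Sum.elim (fun _ => Classical.arbitrary W1) (Sum.elim (fun _ => Classical.arbitrary W1)
    (Sum.elim (fun e => (e : W1 × Om × W1).2.2) (fun _ => Classical.arbitrary W1)))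

/-- the state of the first layer of the left process -/
noncomputable def eta : LS F2.I.J F2.E F3.E → W1 :=
  Sum.elim (fun _ => Classical.arbitrary W1) (Sum.elim (fun j => (j : W1))
    (fun _ => Classical.arbitrary W1))

theorem ms_bit (b : Idx) : MeasurableSet {x : Idx → Bool | x b = true} :=
  (measurableSet_singleton true : MeasurableSet ({true} : Set Bool)).preimage
    (measurable_pi_apply b)

/-- the left coin -/
def SS (b : Idx) : Set F2.E := F2.ξ ⁻¹' {x : Idx → Bool | x b = true}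

/-- the right coin -/
def SS' (b : Idx) : Set F2'.E := F2'.ξ ⁻¹' {x : Idx → Bool | x b = true}

theorem ms_SS (b : Idx) : MeasurableSet (SS b) := F2.measurableSet_coord (ms_bit b)
theorem ms_SS' (b : Idx) : MeasurableSet (SS' b) := F2'.measurableSet_coord (ms_bit b)

section

variable {L : Type} (a : L) {Z : LMP L} {p1 : Z.S → LS F2.I.J F2.E F3.E}
  {p2 : Z.S → LS F2'.I.J F2'.E F3.E}

/-- the event that the left coin and the right coin differ -/
def OO (p1 : Z.S → LS F2.I.J F2.E F3.E) (p2 : Z.S → LS F2'.I.J F2'.E F3.E) (b : Idx) :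
    Set Z.S :=
  {r | ¬ (p1 r ∈ (i2 '' SS b : Set (LS F2.I.J F2.E F3.E)) ↔
    p2 r ∈ (i2 '' SS' b : Set (LS F2'.I.J F2'.E F3.E)))}

theorem ms_OO (h1 : Zigzag Z (PL L) p1) (h2 : Zigzag Z (PR L) p2) (b : Idx) :
    MeasurableSet (OO p1 p2 b) := by
  have m1 : MeasurableSet (p1 ⁻¹' (i2 '' SS b)) := h1.1 (ms_i2 (ms_SS b))
  have m2 : MeasurableSet (p2 ⁻¹' (i2 '' SS' b)) := h2.1 (ms_i2 (ms_SS' b))
  have : OO p1 p2 b = ((p1 ⁻¹' (i2 '' SS b)) ∩ (p2 ⁻¹' (i2 '' SS' b))ᶜ) ∪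
      ((p1 ⁻¹' (i2 '' SS b))ᶜ ∩ (p2 ⁻¹' (i2 '' SS' b))) := by
    ext r
    simp only [OO, mem_ofPred_eq, mem_union, mem_inter_iff, mem_compl_iff, mem_preimage]
    tauto
  rw [this]
  exact (m1.inter m2.compl).union (m1.compl.inter m2)

theorem key_ae (h1 : Zigzag Z (PL L) p1) (h2 : Zigzag Z (PR L) p2) {r : Z.S} {y y' : W1}
    (e1 : p1 r = i1 (J := F2.I.J) y) (e2 : p2 r = i1 (J := F2'.I.J) y') :
    ∀ᵐ r' ∂(Z.τ a r), y = y' ∧ ∀ b : Idx, (r' ∈ OO p1 p2 b ↔ (y, zeta (p2 r')) ∈ b.1) := by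
  filter_upwards [first_ae a h1 h2 e1 e2] with r' hr'
  obtain ⟨e, e', he, he', hπ, hπ', hg⟩ := hr'
  obtain ⟨y1, ω⟩ := (e : W1 × Om)
  obtain ⟨y2, ω2, z⟩ := (e' : W1 × Om × W1)
  have hg' : ((y1, ω) : W1 × Om) = (y2, ω2) := hg
  have hπ2 : y1 = y := hπ
  have hπ2' : y2 = y' := hπ'
  have hy : y1 = y2 := (Prod.ext_iff.1 hg').1
  have hω : ω = ω2 := (Prod.ext_iff.1 hg').2
  subst hy hω hπ2 hπ2'
  refine ⟨rfl, ?_⟩
  intro b
  have hz : zeta (p2 r') = z := by rw [he']; rfl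
  rw [hz]
  show ¬ (p1 r' ∈ (i2 '' SS b : Set (LS F2.I.J F2.E F3.E)) ↔
    p2 r' ∈ (i2 '' SS' b : Set (LS F2'.I.J F2'.E F3.E))) ↔ _
  rw [he, he']
  refine (not_congr (iff_congr (mem_i2 (F := F2)) (mem_i2 (F := F2')))).trans ?_
  show ¬ (xi ω b = true ↔ xor (xi ω b) (dl (y1, z) b) = true) ↔ _
  rw [← dl_iff]
  cases xi ω b <;> cases dl (y1, z) b <;> simp

theorem ae_exists {Ω : Type} [MeasurableSpace Ω] {m : Measure Ω} {p : Ω → Prop}
    (h1 : m Set.univ = 1)
    (h : ∀ᵐ x ∂m, p x) : ∃ x, p x := by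
  by_contra hcon
  push Not at hcon
  rw [ae_iff] at h
  have : {x | ¬ p x} = Set.univ := by
    ext x
    simp [hcon x]
  rw [this, h1] at h
  exact one_ne_zero h

theorem y_eq (h1 : Zigzag Z (PL L) p1) (h2 : Zigzag Z (PR L) p2) {r : Z.S} {y y' : W1}
    (e1 : p1 r = i1 (J := F2.I.J) y) (e2 : p2 r = i1 (J := F2'.I.J) y') (a : L) : y = y' := by
  obtain ⟨x, hx, _⟩ := ae_exists (first_univ a h1 e1) (key_ae a h1 h2 e1 e2)
  exact hx

/-- a small set with one prescribed fibre -/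
def oneFibre (y : W1) (B : Set W1) : Idx := ⟨{p | p.1 = y ∧ p.2 ∈ B}, by
  refine (countable_singleton y).mono ?_
  intro x hx
  by_contra hxy
  apply hx
  have : {z | (x, z) ∈ {p : W1 × W1 | p.1 = y ∧ p.2 ∈ B}} = ∅ := by
    ext z
    simp only [mem_ofPred_eq, mem_empty_iff_false, iff_false]
    rintro ⟨h, _⟩
    exact hxy h
  rw [this]
  exact countable_empty⟩

theorem exists_C (h1 : Zigzag Z (PL L) p1) (h2 : Zigzag Z (PR L) p2) {r : Z.S} {y : W1}
    (e1 : p1 r = i1 (J := F2.I.J) y) (e2 : p2 r = i1 (J := F2'.I.J) y) :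
    ∃ C : Set W1, C.Countable ∧ Z.τ a r ((fun r' => zeta (p2 r')) ⁻¹' Cᶜ) = 0 := by
  have : IsFiniteMeasure (Z.τ a r) := ⟨by
    rw [first_univ a h1 e1]
    exact ENNReal.one_lt_top⟩
  refine ulam_null W1_card (Z.τ a r) (fun r' => zeta (p2 r')) ?_
  intro B
  have hae : (fun r' => zeta (p2 r')) ⁻¹' B =ᵐ[Z.τ a r] OO p1 p2 (oneFibre y B) := by
    filter_upwards [key_ae a h1 h2 e1 e2] with r' hr'
    have := hr'.2 (oneFibre y B)
    apply propext
    show zeta (p2 r') ∈ B ↔ r' ∈ OO p1 p2 (oneFibre y B)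
    rw [this]
    show _ ↔ (y = y ∧ zeta (p2 r') ∈ B)
    simp
  exact (ms_OO h1 h2 _).nullMeasurableSet.congr hae.symm

/-- a small set with countable fibres -/
def ctFibres (C : W1 → Set W1) (hC : ∀ y, (C y).Countable) (D : Set W1) : Idx :=
  ⟨{p | p.1 ∈ D ∧ p.2 ∈ C p.1}, by
    have : {y | ¬ {z | (y, z) ∈ {p : W1 × W1 | p.1 ∈ D ∧ p.2 ∈ C p.1}}.Countable} = ∅ := by
      ext y
      simp only [mem_ofPred_eq, mem_empty_iff_false, iff_false, not_not]
      exact (hC y).mono (fun z hz => hz.2)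
    unfold SId.Sm
    rw [this]
    exact countable_empty⟩

include a in
theorem no_span (h1 : Zigzag Z (PL L) p1) (h2 : Zigzag Z (PR L) p2)
    (hinj : ∀ r r', p1 r = p1 r' → p2 r = p2 r' → r = r') (r0 : Z.S)
    (e1 : p1 r0 = Sum.inl ()) (e2 : p2 r0 = Sum.inl ()) : False := by
  classical
  have hC : ∀ y : W1, ∃ C : Set W1, C.Countable ∧ ∀ r : Z.S, p1 r = i1 (J := F2.I.J) y →
      p2 r = i1 (J := F2'.I.J) y → Z.τ a r ((fun r' => zeta (p2 r')) ⁻¹' Cᶜ) = 0 := by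
    intro y
    by_cases hex : ∃ r : Z.S, p1 r = i1 (J := F2.I.J) y ∧ p2 r = i1 (J := F2'.I.J) y
    · obtain ⟨r, hr1, hr2⟩ := hex
      obtain ⟨C, hC, h0⟩ := exists_C a h1 h2 hr1 hr2
      refine ⟨C, hC, fun r' hr1' hr2' => ?_⟩
      have : r' = r := hinj r' r (hr1'.trans hr1.symm) (hr2'.trans hr2.symm)
      rw [this]
      exact h0
    · push Not at hex
      exact ⟨∅, countable_empty, fun r hr1 hr2 => absurd hr2 (hex r hr1)⟩
  choose C hCc hC0 using hC
  have hval : ∀ (D : Set W1) (r : Z.S) (y : W1), p1 r = i1 (J := F2.I.J) y →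
      p2 r = i1 (J := F2'.I.J) y → (Z.τ a r (OO p1 p2 (ctFibres C hCc D)) = 1 ↔ y ∈ D) := by
    intro D r y hr1 hr2
    have hkey := key_ae a h1 h2 hr1 hr2
    by_cases hy : y ∈ D
    · simp only [hy, iff_true]
      have h3 : ∀ᵐ r' ∂(Z.τ a r), r' ∈ OO p1 p2 (ctFibres C hCc D) := by
        have h4 : ∀ᵐ r' ∂(Z.τ a r), zeta (p2 r') ∈ C y := by
          rw [ae_iff]
          exact hC0 y r hr1 hr2
        filter_upwards [hkey, h4] with r' h5 h6
        rw [h5.2]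
        exact ⟨hy, h6⟩
      have h7 : Z.τ a r (OO p1 p2 (ctFibres C hCc D)) = Z.τ a r Set.univ := by
        apply measure_congr
        filter_upwards [h3] with r' h8
        exact propext ⟨fun _ => trivial, fun _ => h8⟩
      rw [h7]
      exact first_univ a h1 hr1
    · simp only [hy, iff_false]
      have h7 : Z.τ a r (OO p1 p2 (ctFibres C hCc D)) = 0 := by
        rw [measure_eq_zero_iff_ae_notMem]
        filter_upwards [hkey] with r' h5
        rw [h5.2]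
        rintro ⟨h6, _⟩
        exact hy h6
      rw [h7]
      exact zero_ne_one
  have hfin : IsFiniteMeasure (Z.τ a r0) := ⟨by
    rw [zero_univ a h1 e1]
    exact ENNReal.one_lt_top⟩
  have hnull : ∀ D : Set W1, NullMeasurableSet ((fun r => eta (p1 r)) ⁻¹' D) (Z.τ a r0) := by
    intro D
    have hms : MeasurableSet {r : Z.S | Z.τ a r (OO p1 p2 (ctFibres C hCc D)) = 1} := by
      have hmeas : Measurable (fun r : Z.S => Z.τ a r (OO p1 p2 (ctFibres C hCc D))) :=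
        (Z.τ a).measurable_coe (ms_OO h1 h2 _)
      exact hmeas (measurableSet_singleton 1)
    have hae : (fun r => eta (p1 r)) ⁻¹' D =ᵐ[Z.τ a r0]
        {r : Z.S | Z.τ a r (OO p1 p2 (ctFibres C hCc D)) = 1} := by
      filter_upwards [zero_ae a h1 h2 e1 e2] with r hr
      obtain ⟨j, j', hj, hj'⟩ := hr
      have hjj : (show W1 from j) = (show W1 from j') := y_eq h1 h2 hj hj' a
      have hj2 : p2 r = i1 (J := F2'.I.J) (show W1 from j) := by
        rw [hjj]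
        exact hj'
      apply propext
      show eta (p1 r) ∈ D ↔ Z.τ a r (OO p1 p2 (ctFibres C hCc D)) = 1
      rw [hval D r (show W1 from j) hj hj2, hj]
      exact Iff.rfl
    exact hms.nullMeasurableSet.congr hae.symm
  obtain ⟨C', hC', h0⟩ := ulam_null W1_card (Z.τ a r0) (fun r => eta (p1 r)) hnull
  have h3 : Z.τ a r0 (p1 ⁻¹' (i1 '' (C' : Set F2.I.J))) = 0 := by
    have hsm : F2.I.small (C' : Set F2.I.J) := hC'
    rw [zero_meas a h1 e1 (Or.inl hsm)]
    exact F2.I.mu_small hsm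
  have h4 : ∀ᵐ r ∂(Z.τ a r0), False := by
    have h5 : ∀ᵐ r ∂(Z.τ a r0), eta (p1 r) ∈ C' := by
      rw [ae_iff]
      exact h0
    have h6 : ∀ᵐ r ∂(Z.τ a r0), r ∉ p1 ⁻¹' (i1 '' (C' : Set F2.I.J)) :=
      measure_eq_zero_iff_ae_notMem.1 h3
    filter_upwards [h5, h6, zero_ae a h1 h2 e1 e2] with r h7 h8 h9
    obtain ⟨j, j', hj, hj'⟩ := h9
    apply h8
    rw [mem_preimage, hj]
    rw [hj] at h7
    exact ⟨j, h7, rfl⟩
  obtain ⟨_, hx⟩ := ae_exists (zero_univ a h1 e1) h4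
  exact hx

end

theorem not_delta (L : Type) [Nonempty L] : ¬ DeltaBisim (PL L) (PR L) (sL L) (sR L) := by
  rintro ⟨Q, hQ⟩
  refine no_span (Classical.arbitrary L) (Z := LMP.mk Q.R Q.ms Q.τ Q.sub) Q.left Q.right ?_
    ⟨(sL L, sR L), hQ⟩ rfl rfl
  intro r r' h h'
  exact Subtype.ext (Prod.ext h h')

end Q224.LM
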