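import Mathlib

/-!
# Ulam: a finite measure on all subsets of a set of cardinality `ℵ₁` is concentrated on a
countable set
-/

set_option autoImplicit false

open MeasureTheory Set Cardinal

namespace Q224.LM

theorem ulam {W : Type} (hW : #W = ℵ₁) (m : @Measure W ⊤) [@IsFiniteMeasure W ⊤ m] :
    ∃ C : Set W, C.Countable ∧ m Cᶜ = 0 := by
  classical
  let _ : MeasurableSpace W := ⊤
  have hms : ∀ s : Set W, MeasurableSet s := fun s => trivial
  obtain ⟨lo, wf, hr⟩ := Cardinal.exists_ord_eq_type_lt W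
  have hIio : ∀ z : W, (Iio z).Countable := by
    intro z
    have h1 : #(Iio z) < #W := Cardinal.mk_Iio_lt z hr
    rw [hW] at h1
    rw [← Cardinal.le_aleph0_iff_set_countable]
    exact Cardinal.lt_aleph_one_iff.1 h1
  have he : ∀ z : W, ∃ e : W → ℕ, InjOn e (Iio z) := by
    intro z
    exact Set.countable_iff_exists_injOn.1 (hIio z)
  choose e he using he
  let C : Set W := {z | 0 < m {z}}
  have hC : C.Countable := by
    have := Measure.countable_meas_pos_of_disjoint_iUnion (μ := m) (As := fun z : W => ({z} : Set W))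
      (fun z => hms _) (fun a b hab => by simpa using hab)
    exact this
  refine ⟨C, hC, ?_⟩
  by_contra hpos
  have hpos' : 0 < m Cᶜ := pos_iff_ne_zero.2 hpos
  let U : ℕ → W → Set W := fun n α => {z | α < z ∧ e z α = n} ∩ Cᶜ
  have hU : ∀ α : W, ∃ n : ℕ, 0 < m (U n α) := by
    intro α
    by_contra hcon
    push Not at hcon
    have h0 : ∀ n, m (U n α) = 0 := fun n => le_antisymm (hcon n) zero_le
    have h1 : m (⋃ n, U n α) = 0 := measure_iUnion_null h0
    have h2 : m (⋃ z ∈ (insert α (Iio α)) ∩ Cᶜ, ({z} : Set W)) = 0 := by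
      refine (measure_biUnion_null_iff ((((hIio α).insert α)).mono inter_subset_left)).2 ?_
      intro z hz
      have : ¬ 0 < m {z} := hz.2
      exact le_antisymm (not_lt.1 this) zero_le
    have h3 : Cᶜ ⊆ (⋃ n, U n α) ∪ (⋃ z ∈ (insert α (Iio α)) ∩ Cᶜ, ({z} : Set W)) := by
      intro z hz
      rcases lt_or_ge α z with h | h
      · left
        exact mem_iUnion.2 ⟨e z α, ⟨h, rfl⟩, hz⟩
      · right
        refine mem_iUnion₂.2 ⟨z, ⟨?_, hz⟩, rfl⟩
        rcases h.lt_or_eq with h | h
        · exact Or.inr h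
        · exact Or.inl h
    have h4 : m Cᶜ ≤ 0 := by
      calc m Cᶜ ≤ _ := measure_mono h3
        _ ≤ _ := measure_union_le _ _
        _ = 0 := by rw [h1, h2, add_zero]
    exact absurd (le_antisymm h4 zero_le) hpos
  have hcount : ∀ n : ℕ, {α : W | 0 < m (U n α)}.Countable := by
    intro n
    refine Measure.countable_meas_pos_of_disjoint_iUnion (μ := m) (As := fun α : W => U n α)
      (fun z => hms _) ?_
    intro a b hab
    rw [Function.onFun, Set.disjoint_left]
    rintro z ⟨⟨h1, h2⟩, _⟩ ⟨⟨h3, h4⟩, _⟩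
    exact hab (he z h1 h3 (h2.trans h4.symm))
  have huniv : (univ : Set W).Countable := by
    have h1 : (univ : Set W) ⊆ ⋃ n, {α : W | 0 < m (U n α)} := by
      intro α _
      obtain ⟨n, hn⟩ := hU α
      exact mem_iUnion.2 ⟨n, hn⟩
    exact (countable_iUnion hcount).mono h1
  have h2 : #W ≤ ℵ₀ := by
    have := Cardinal.le_aleph0_iff_set_countable.2 huniv
    rwa [Cardinal.mk_univ] at this
  rw [hW] at h2
  exact absurd h2 (not_le.2 Cardinal.aleph0_lt_aleph_one)

end Q224.LM
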