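import Pool.Agent.Q224.LM.Span
import Pool.Agent.Q224.LM.Ulam

/-!
# No coalgebraic bisimulation
-/

set_option autoImplicit false

open MeasureTheory ProbabilityTheory Set Cardinal

namespace Q224.LM

/-- a map all of whose fibres over sets are null measurable is concentrated on countably many
values -/
theorem ulam_null {Ω W : Type} (hW : #W = ℵ₁) [MeasurableSpace Ω] (m : Measure Ω)
    [IsFiniteMeasure m] (ζ : Ω → W) (h : ∀ B : Set W, NullMeasurableSet (ζ ⁻¹' B) m) :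
    ∃ C : Set W, C.Countable ∧ m (ζ ⁻¹' Cᶜ) = 0 := by
  let m' : @Measure W ⊤ := @Measure.ofMeasurable W ⊤ (fun B _ => m (ζ ⁻¹' B))
    (by
      show m (ζ ⁻¹' ∅) = 0
      rw [preimage_empty, measure_empty])
    (by
      intro f _ hd
      show m (ζ ⁻¹' (⋃ i, f i)) = ∑' i, m (ζ ⁻¹' (f i))
      rw [preimage_iUnion]
      refine measure_iUnion₀ ?_ (fun n => h (f n))
      intro a b hab
      exact (Disjoint.preimage ζ (hd hab)).aedisjoint)
  have hm' : ∀ B : Set W, m' B = m (ζ ⁻¹' B) := fun B =>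
    @Measure.ofMeasurable_apply W ⊤ _ _ _ B trivial
  have hfin : @IsFiniteMeasure W ⊤ m' := by
    refine @IsFiniteMeasure.mk W ⊤ m' ?_
    rw [hm']
    exact measure_lt_top m _
  obtain ⟨C, hC, h0⟩ := @ulam W hW m' hfin
  exact ⟨C, hC, by rw [← hm']; exact h0⟩

section

variable {L : Type} (F : Fib) (g : F.E → F3.I.J) (hg : Measurable g) (a : L)

theorem tau0 {E : Set (LS F.I.J F.E F3.E)} (hE : MeasurableSet E) :
    (proc L F g hg).τ a (Sum.inl ()) E = F.I.mu (i1 ⁻¹' E) := by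
  show (F.I.mu.map (i1 : F.I.J → LS F.I.J F.E F3.E)) E = _
  rw [Measure.map_apply measurable_i1 hE]

theorem tau1 (j : F.I.J) {E : Set (LS F.I.J F.E F3.E)} (hE : MeasurableSet E) :
    (proc L F g hg).τ a (i1 j : LS F.I.J F.E F3.E) E = F.fm j (i2 ⁻¹' E) := by
  show ((F.ker j).map (i2 : F.E → LS F.I.J F.E F3.E)) E = _
  rw [Measure.map_apply measurable_i2 hE]
  rfl

theorem tau2 (e : F.E) {E : Set (LS F.I.J F.E F3.E)} (hE : MeasurableSet E) :
    (proc L F g hg).τ a (i2 e : LS F.I.J F.E F3.E) E = F3.fm (g e) (i3 ⁻¹' E) := by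
  show ((kk F g hg e).map (i3 : F3.E → LS F.I.J F.E F3.E)) E = _
  rw [Measure.map_apply measurable_i3 hE, kk_apply]

theorem tau3 (x : F3.E) : (proc L F g hg).τ a (i3 x : LS F.I.J F.E F3.E) univ = mass x := by
  show ((k3 x).map (i3 : F3.E → LS F.I.J F.E F3.E)) univ = _
  rw [Measure.map_apply measurable_i3 MeasurableSet.univ, preimage_univ, k3_univ]

theorem mem_i1 {F : Fib} {D : Set F.I.J} {j : F.I.J} :
    (i1 j : LS F.I.J F.E F3.E) ∈ (i1 '' D) ↔ j ∈ D := by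
  constructor
  · rintro ⟨j', hj', h⟩
    have : j' = j := by
      have h' := Sum.inr_injective h
      exact Sum.inl_injective h'
    rwa [← this]
  · intro h
    exact ⟨j, h, rfl⟩

theorem mem_i2 {F : Fib} {D : Set F.E} {e : F.E} :
    (i2 e : LS F.I.J F.E F3.E) ∈ (i2 '' D) ↔ e ∈ D := by
  constructor
  · rintro ⟨j', hj', h⟩
    have : j' = e := by
      have h' := Sum.inr_injective h
      exact Sum.inl_injective (Sum.inr_injective h')
    rwa [← this]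
  · intro h
    exact ⟨e, h, rfl⟩

theorem mem_i3 {F : Fib} {D : Set F3.E} {e : F3.E} :
    (i3 e : LS F.I.J F.E F3.E) ∈ (i3 '' D) ↔ e ∈ D := by
  constructor
  · rintro ⟨j', hj', h⟩
    have : j' = e := by
      have h' := Sum.inr_injective h
      exact Sum.inr_injective (Sum.inr_injective h')
    rwa [← this]
  · intro h
    exact ⟨e, h, rfl⟩

theorem ms_i1 {F : Fib} {D : Set F.I.J} (hD : MeasurableSet D) :
    MeasurableSet (i1 '' D : Set (LS F.I.J F.E F3.E)) := by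
  have : (i1 '' D : Set (LS F.I.J F.E F3.E)) = Sum.inr '' (Sum.inl '' D) := by
    rw [image_image]; rfl
  rw [this]
  exact (measurableSet_inr_image.2 (measurableSet_inl_image.2 hD))

theorem ms_i2 {F : Fib} {D : Set F.E} (hD : MeasurableSet D) :
    MeasurableSet (i2 '' D : Set (LS F.I.J F.E F3.E)) := by
  have : (i2 '' D : Set (LS F.I.J F.E F3.E)) = Sum.inr '' (Sum.inr '' (Sum.inl '' D)) := by
    rw [image_image, image_image]; rfl
  rw [this]
  exact (measurableSet_inr_image.2 (measurableSet_inr_image.2 (measurableSet_inl_image.2 hD)))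

theorem ms_i3 {F : Fib} {D : Set F3.E} (hD : MeasurableSet D) :
    MeasurableSet (i3 '' D : Set (LS F.I.J F.E F3.E)) := by
  have : (i3 '' D : Set (LS F.I.J F.E F3.E)) = Sum.inr '' (Sum.inr '' (Sum.inr '' D)) := by
    rw [image_image, image_image]; rfl
  rw [this]
  exact (measurableSet_inr_image.2 (measurableSet_inr_image.2 (measurableSet_inr_image.2 hD)))

theorem pre_i1 {F : Fib} (D : Set F.I.J) :
    (i1 ⁻¹' (i1 '' D : Set (LS F.I.J F.E F3.E))) = D := by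
  ext j; exact mem_i1

theorem pre_i2 {F : Fib} (D : Set F.E) :
    (i2 ⁻¹' (i2 '' D : Set (LS F.I.J F.E F3.E))) = D := by
  ext j; exact mem_i2

theorem pre_i3 {F : Fib} (D : Set F3.E) :
    (i3 ⁻¹' (i3 '' D : Set (LS F.I.J F.E F3.E))) = D := by
  ext j; exact mem_i3

end

section

variable {L : Type} {F F' : Fib} {g : F.E → F3.I.J} {hg : Measurable g} {g' : F'.E → F3.I.J}
  {hg' : Measurable g'} (a : L) {Z : LMP L} {p1 : Z.S → LS F.I.J F.E F3.E}
  {p2 : Z.S → LS F'.I.J F'.E F3.E}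

theorem z0 (h1 : Zigzag Z (proc L F g hg) p1) {r : Z.S} (e1 : p1 r = Sum.inl ())
    {E : Set (LS F.I.J F.E F3.E)} (hE : MeasurableSet E) :
    Z.τ a r (p1 ⁻¹' E) = F.I.mu (i1 ⁻¹' E) := by
  have u := h1.2 a r E hE
  have v : (proc L F g hg).τ a (p1 r) E = F.I.mu (i1 ⁻¹' E) := by
    rw [e1]; exact tau0 F g hg a hE
  exact u.symm.trans v

theorem z1 (h1 : Zigzag Z (proc L F g hg) p1) {r : Z.S} {j : F.I.J} (e1 : p1 r = i1 j)
    {E : Set (LS F.I.J F.E F3.E)} (hE : MeasurableSet E) :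
    Z.τ a r (p1 ⁻¹' E) = F.fm j (i2 ⁻¹' E) := by
  have u := h1.2 a r E hE
  have v : (proc L F g hg).τ a (p1 r) E = F.fm j (i2 ⁻¹' E) := by
    rw [e1]; exact tau1 F g hg a j hE
  exact u.symm.trans v

theorem z2 (h1 : Zigzag Z (proc L F g hg) p1) {r : Z.S} {e : F.E} (e1 : p1 r = i2 e)
    {E : Set (LS F.I.J F.E F3.E)} (hE : MeasurableSet E) :
    Z.τ a r (p1 ⁻¹' E) = F3.fm (g e) (i3 ⁻¹' E) := by
  have u := h1.2 a r E hE
  have v : (proc L F g hg).τ a (p1 r) E = F3.fm (g e) (i3 ⁻¹' E) := by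
    rw [e1]; exact tau2 F g hg a e hE
  exact u.symm.trans v

theorem z3 (h1 : Zigzag Z (proc L F g hg) p1) {r : Z.S} {x : F3.E} (e1 : p1 r = i3 x) :
    Z.τ a r univ = mass x := by
  have u := h1.2 a r univ MeasurableSet.univ
  have v : (proc L F g hg).τ a (p1 r) univ = mass x := by
    rw [e1]; exact tau3 F g hg a x
  exact u.symm.trans v

include a in
theorem mass_eq (h1 : Zigzag Z (proc L F g hg) p1) (h2 : Zigzag Z (proc L F' g' hg') p2)
    {r : Z.S} {x x' : F3.E} (e1 : p1 r = i3 x) (e2 : p2 r = i3 x') : x = x' := by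
  apply mass_inj
  rw [← z3 a h1 e1, ← z3 a h2 e2]

include a in
theorem sec_eq (h1 : Zigzag Z (proc L F g hg) p1) (h2 : Zigzag Z (proc L F' g' hg') p2)
    {r : Z.S} {e : F.E} {e' : F'.E} (e1 : p1 r = i2 e) (e2 : p2 r = i2 e') : g e = g' e' := by
  by_contra hne
  let Q : Set F3.E := {x | F3.π x = g e}
  have hQ : MeasurableSet Q := F3.measurableSet_fibre (g e)
  have u1 : Z.τ a r (p1 ⁻¹' (i3 '' Q)) = 1 := by
    rw [z2 a h1 e1 (ms_i3 hQ), pre_i3]
    exact F3.fm_fibre (g e)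
  have u2 : Z.τ a r (p2 ⁻¹' (i3 '' Q)) = 0 := by
    rw [z2 a h2 e2 (ms_i3 hQ), pre_i3]
    exact F3.fm_fibre_ne (fun h => hne h.symm)
  have u3 : Z.τ a r (p2 ⁻¹' (i3 '' univ)ᶜ) = 0 := by
    rw [z2 a h2 e2 (ms_i3 MeasurableSet.univ).compl, preimage_compl, pre_i3, compl_univ,
      measure_empty]
  have hsub : p1 ⁻¹' (i3 '' Q) ⊆ p2 ⁻¹' (i3 '' Q) ∪ p2 ⁻¹' (i3 '' univ)ᶜ := by
    intro r' hr'
    by_cases hc : p2 r' ∈ (i3 '' (univ : Set F3.E) : Set (LS F'.I.J F'.E F3.E))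
    · left
      obtain ⟨x', _, hx'⟩ := hc
      obtain ⟨x, hx, hx2⟩ := hr'
      have := mass_eq a h1 h2 hx2.symm hx'.symm
      rw [mem_preimage, ← hx', ← this]
      exact ⟨x, hx, rfl⟩
    · right
      exact hc
  have hle : Z.τ a r (p1 ⁻¹' (i3 '' Q)) ≤ 0 := by
    calc Z.τ a r (p1 ⁻¹' (i3 '' Q)) ≤ _ := measure_mono hsub
      _ ≤ _ := measure_union_le _ _
      _ = 0 := by rw [u2, u3, add_zero]
  rw [u1] at hle
  exact absurd hle (by simp)

theorem first_ae (h1 : Zigzag Z (proc L F g hg) p1) (h2 : Zigzag Z (proc L F' g' hg') p2)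
    {r : Z.S} {j : F.I.J} {j' : F'.I.J} (e1 : p1 r = i1 j) (e2 : p2 r = i1 j') :
    ∀ᵐ r' ∂(Z.τ a r), ∃ e e', p1 r' = i2 e ∧ p2 r' = i2 e' ∧ F.π e = j ∧ F'.π e' = j' ∧
      g e = g' e' := by
  have hm1 := ms_i2 (F.measurableSet_fibre j)
  have hm2 := ms_i2 (F'.measurableSet_fibre j')
  have u1 : Z.τ a r (p1 ⁻¹' (i2 '' {e | F.π e = j})ᶜ) = 0 := by
    rw [z1 a h1 e1 hm1.compl, preimage_compl, pre_i2, measure_compl (F.measurableSet_fibre j)
      (by rw [F.fm_fibre]; exact ENNReal.one_ne_top), F.fm_fibre, F.fm_univ, tsub_self]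
  have u2 : Z.τ a r (p2 ⁻¹' (i2 '' {e | F'.π e = j'})ᶜ) = 0 := by
    rw [z1 a h2 e2 hm2.compl, preimage_compl, pre_i2, measure_compl (F'.measurableSet_fibre j')
      (by rw [F'.fm_fibre]; exact ENNReal.one_ne_top), F'.fm_fibre, F'.fm_univ, tsub_self]
  have a1 : ∀ᵐ r' ∂(Z.τ a r), p1 r' ∈ (i2 '' {e | F.π e = j} : Set (LS F.I.J F.E F3.E)) := by
    rw [ae_iff]
    exact u1
  have a2 : ∀ᵐ r' ∂(Z.τ a r), p2 r' ∈ (i2 '' {e | F'.π e = j'} : Set (LS F'.I.J F'.E F3.E)) := by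
    rw [ae_iff]
    exact u2
  filter_upwards [a1, a2] with r' b1 b2
  obtain ⟨e, he, he2⟩ := b1
  obtain ⟨e', he', he2'⟩ := b2
  exact ⟨e, e', he2.symm, he2'.symm, he, he', sec_eq a h1 h2 he2.symm he2'.symm⟩

theorem first_univ (h1 : Zigzag Z (proc L F g hg) p1) {r : Z.S} {j : F.I.J} (e1 : p1 r = i1 j) :
    Z.τ a r univ = 1 := by
  have := z1 a h1 e1 MeasurableSet.univ
  rw [preimage_univ, preimage_univ, F.fm_univ] at this
  exact this

theorem zero_ae (h1 : Zigzag Z (proc L F g hg) p1) (h2 : Zigzag Z (proc L F' g' hg') p2)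
    {r : Z.S} (e1 : p1 r = Sum.inl ()) (e2 : p2 r = Sum.inl ()) :
    ∀ᵐ r' ∂(Z.τ a r), ∃ j j', p1 r' = i1 j ∧ p2 r' = i1 j' := by
  have hm1 := ms_i1 (F := F) (D := univ) MeasurableSet.univ
  have hm2 := ms_i1 (F := F') (D := univ) MeasurableSet.univ
  have u1 : Z.τ a r (p1 ⁻¹' (i1 '' univ)ᶜ) = 0 := by
    rw [z0 a h1 e1 hm1.compl, preimage_compl, pre_i1, compl_univ, measure_empty]
  have u2 : Z.τ a r (p2 ⁻¹' (i1 '' univ)ᶜ) = 0 := by
    rw [z0 a h2 e2 hm2.compl, preimage_compl, pre_i1, compl_univ, measure_empty]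
  have a1 : ∀ᵐ r' ∂(Z.τ a r), p1 r' ∈ (i1 '' univ : Set (LS F.I.J F.E F3.E)) := by
    rw [ae_iff]
    exact u1
  have a2 : ∀ᵐ r' ∂(Z.τ a r), p2 r' ∈ (i1 '' univ : Set (LS F'.I.J F'.E F3.E)) := by
    rw [ae_iff]
    exact u2
  filter_upwards [a1, a2] with r' b1 b2
  obtain ⟨e, he, he2⟩ := b1
  obtain ⟨e', he', he2'⟩ := b2
  exact ⟨e, e', he2.symm, he2'.symm⟩

theorem zero_meas (h1 : Zigzag Z (proc L F g hg) p1) {r : Z.S} (e1 : p1 r = Sum.inl ())
    {D : Set F.I.J} (hD : MeasurableSet D) : Z.τ a r (p1 ⁻¹' (i1 '' D)) = F.I.mu D := by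
  rw [z0 a h1 e1 (ms_i1 hD), pre_i1]

theorem zero_univ (h1 : Zigzag Z (proc L F g hg) p1) {r : Z.S} (e1 : p1 r = Sum.inl ()) :
    Z.τ a r univ = 1 := by
  have := z0 a h1 e1 MeasurableSet.univ
  rw [preimage_univ, preimage_univ, F.I.mu_univ] at this
  exact this

end

end Q224.LM
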