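import Pool.Agent.Q224.LM.Conc

/-!
# The span
-/

set_option autoImplicit false

open MeasureTheory ProbabilityTheory Set Cardinal

namespace Q224.LM

/-- fibred maps -/
theorem Fib.map_spec (F F' : Fib) (f1 : F.I.J → F'.I.J) (f2 : F.E → F'.E)
    (hπ : ∀ e, F'.π (f2 e) = f1 (F.π e)) (t : F.I.J → F.X → F'.X) (ht : ∀ j, Measurable (t j))
    (htP : ∀ j A, MeasurableSet A → F.P (t j ⁻¹' A) = F'.P A)
    (hξ : ∀ e, F'.ξ (f2 e) = t (F.π e) (F.ξ e))
    (hsm : ∀ D, F'.I.small D → F.I.small (f1 ⁻¹' D))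
    (hglob : ∀ A : Set F'.X, MeasurableSet A → ∃ A0 : Set F.X, MeasurableSet A0 ∧
      ∃ B : Set F.I.J, F.I.small B ∧ ∀ j, j ∉ B → t j ⁻¹' A = A0)
    (hh : ∀ N' : Set F'.E, (F'.h '' N').Countable → (F.h '' (f2 ⁻¹' N')).Countable) :
    Measurable f2 ∧ ∀ j (Q : Set F'.E), MeasurableSet Q → F'.fm (f1 j) Q = F.fm j (f2 ⁻¹' Q) := by
  have hrep : ∀ (Q : Set F'.E) (A : Set F'.X) j, F'.Rep (f1 j) Q A →
      F.Rep j (f2 ⁻¹' Q) (t j ⁻¹' A) := by
    rintro Q A j ⟨N, hN, h⟩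
    refine ⟨f2 ⁻¹' N, hh N hN, ?_⟩
    intro e he hn
    have h1 := h (f2 e) (by rw [hπ, he]) hn
    rw [mem_preimage, mem_preimage, h1, hξ, he]
  have hm : Measurable f2 := by
    intro Q hQ
    obtain ⟨⟨A, hA, B, hB, h⟩, h2⟩ := hQ
    refine ⟨?_, ?_⟩
    · obtain ⟨A0, hA0, B0, hB0, h0⟩ := hglob A hA
      refine ⟨A0, hA0, B0 ∪ f1 ⁻¹' B, F.I.union hB0 (hsm B hB), ?_⟩
      intro e he
      have h3 := h (f2 e) (by
        rw [hπ]
        intro hc
        exact he (Or.inr hc))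
      rw [mem_preimage, h3, hξ, ← h0 (F.π e) (fun hc => he (Or.inl hc)), mem_preimage]
    · intro j
      obtain ⟨A, hA, hr⟩ := h2 (f1 j)
      exact ⟨t j ⁻¹' A, ht j hA, hrep Q A j hr⟩
  refine ⟨hm, ?_⟩
  intro j Q hQ
  obtain ⟨A, hA, hr⟩ := hQ.2 (f1 j)
  rw [F'.fm_apply hQ hA hr, F.fm_apply (hm hQ) (ht j hA) (hrep Q A j hr), htP j A hA]

/-- the maps to the base of the third layer -/
def gL : F2.E → F3.I.J := fun e => (e : W1 × Om)
def gR : F2'.E → F3.I.J := fun e => ((e : W1 × Om × W1).1, (e : W1 × Om × W1).2.1)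
def gT : FT.E → F3.I.J := fun e => ((e : W1 × Om × W1).1, (e : W1 × Om × W1).2.1)

theorem measurable_gL : Measurable gL := by
  refine measurable_toH F2 gL ?_ ?_
  · intro D hD
    exact hD.image (Prod.fst : W1 × Om → W1)
  · intro D hD
    exact hD.image (id : W1 × Om → W1 × Om)

theorem measurable_gR : Measurable gR := by
  refine measurable_toH F2' gR ?_ ?_
  · intro D hD
    show Set.Countable ((Prod.fst : W1 × Om × W1 → W1) '' (gR ⁻¹' D))
    refine (hD.image (Prod.fst : W1 × Om → W1)).mono ?_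
    rintro _ ⟨e, he, rfl⟩
    exact ⟨((e : W1 × Om × W1).1, (e : W1 × Om × W1).2.1), he, rfl⟩
  · intro D hD
    show Set.Countable ((fun e : W1 × Om × W1 => (e.1, e.2.1)) '' (gR ⁻¹' D))
    refine Set.Countable.mono ?_ (show Set.Countable (D : Set (W1 × Om)) from hD)
    rintro _ ⟨e, he, rfl⟩
    exact he

theorem measurable_gT : Measurable gT := by
  refine measurable_toH FT gT ?_ ?_
  · intro D hD
    show SId.Sm ((fun e : W1 × Om × W1 => (e.1, e.2.2)) '' (gT ⁻¹' D))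
    refine (SId.two W1 W1 W1_unc W1_unc).mono ?_
      (SId.Sm_prod (Y := W1) (Z := W1) (hD.image (Prod.fst : W1 × Om → W1)))
    rintro _ ⟨e, he, rfl⟩
    exact ⟨((e : W1 × Om × W1).1, (e : W1 × Om × W1).2.1), he, rfl⟩
  · intro D hD
    show Set.Countable ((fun e : W1 × Om × W1 => (e.1, e.2.1)) '' (gT ⁻¹' D))
    refine Set.Countable.mono ?_ (show Set.Countable (D : Set (W1 × Om)) from hD)
    rintro _ ⟨e, he, rfl⟩
    exact he

theorem ker_univ_le (F : Fib) (j : F.I.J) : F.ker j univ ≤ 1 := by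
  rw [F.ker_apply, F.fm_univ]

theorem mu_univ_le (I : SId) : I.mu univ ≤ 1 := by
  rw [I.mu_univ]

theorem k3_univ_le (r : F3.E) : k3 r univ ≤ 1 := by
  rw [k3_univ]
  exact mass_le r

/-- the kernel from the second to the third layer -/
noncomputable def kk (F : Fib) (g : F.E → F3.I.J) (hg : Measurable g) : Kernel F.E F3.E :=
  F3.ker.comap g hg

theorem kk_apply (F : Fib) (g : F.E → F3.I.J) (hg : Measurable g) (e : F.E) :
    kk F g hg e = F3.fm (g e) := by
  unfold kk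
  rw [Kernel.comap_apply]
  rfl

theorem kk_univ_le (F : Fib) (g : F.E → F3.I.J) (hg : Measurable g) (e : F.E) :
    kk F g hg e univ ≤ 1 := by
  rw [kk_apply, F3.fm_univ]

variable (L : Type)

/-- the process of a fibred space -/
noncomputable def proc (F : Fib) (g : F.E → F3.I.J) (hg : Measurable g) : LMP L :=
  lay L F.I.mu F.ker (kk F g hg) k3 (mu_univ_le F.I) (ker_univ_le F) (kk_univ_le F g hg)
    k3_univ_le

/-- the left process -/
noncomputable def PL : LMP L := proc L F2 gL measurable_gL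

/-- the right process -/
noncomputable def PR : LMP L := proc L F2' gR measurable_gR

/-- the process of the span -/
noncomputable def PT : LMP L := proc L FT gT measurable_gT

/-- the maps of the span -/
def fL1 : FT.I.J → F2.I.J := fun p => (p : W1 × W1).1
def fR1 : FT.I.J → F2'.I.J := fun p => (p : W1 × W1).1
def fL2 : FT.E → F2.E := fun e => ((e : W1 × Om × W1).1, (e : W1 × Om × W1).2.1)
def fR2 : FT.E → F2'.E := fun e => (e : W1 × Om × W1)

theorem small_L (D : Set F2.I.J) (hD : F2.I.small D) : FT.I.small (fL1 ⁻¹' D) :=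
  SId.Sm_prod (Y := W1) (Z := W1) hD

theorem small_R (D : Set F2'.I.J) (hD : F2'.I.small D) : FT.I.small (fR1 ⁻¹' D) :=
  SId.Sm_prod (Y := W1) (Z := W1) hD

theorem spec_L : Measurable fL2 ∧ ∀ j (Q : Set F2.E), MeasurableSet Q →
    F2.fm (fL1 j) Q = FT.fm j (fL2 ⁻¹' Q) := by
  refine Fib.map_spec FT F2 fL1 fL2 (fun _ => rfl) (fun _ x => x) (fun _ => measurable_id)
    (fun _ _ _ => rfl) (fun _ => rfl) small_L ?_ ?_
  · intro A hA
    exact ⟨A, hA, ∅, FT.I.empty, fun _ _ => rfl⟩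
  · intro N hN
    show Set.Countable ((fun e : W1 × Om × W1 => (e.1, e.2.1)) '' (fL2 ⁻¹' N))
    refine Set.Countable.mono ?_ hN
    rintro _ ⟨e, he, rfl⟩
    exact ⟨fL2 e, he, rfl⟩

theorem spec_R : Measurable fR2 ∧ ∀ j (Q : Set F2'.E), MeasurableSet Q →
    F2'.fm (fR1 j) Q = FT.fm j (fR2 ⁻¹' Q) := by
  refine Fib.map_spec FT F2' fR1 fR2 (fun _ => rfl)
    (fun p x => flip (dl (p : W1 × W1)) x) (fun p => measurable_flip _)
    (fun p A hA => coin_flip_apply _ hA) (fun _ => rfl) small_R ?_ ?_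
  · intro A hA
    obtain ⟨T, hT, hdep⟩ := countable_dep (A := (A : Set (Idx → Bool))) hA
    refine ⟨A, hA, {p : W1 × W1 | ∃ b ∈ T, p ∈ b.1}, ?_, ?_⟩
    · rcases T.eq_empty_or_nonempty with h0 | hne
      · subst h0
        refine FT.I.mono (B := ∅) ?_ FT.I.empty
        rintro p ⟨b, hb, _⟩
        exact absurd hb (by simp)
      · obtain ⟨f, hf⟩ := hT.exists_eq_range hne
        refine FT.I.mono (B := ⋃ n, (f n).1) ?_ (FT.I.iUnion _ (fun n => (f n).2))
        rintro p ⟨b, hb, hp⟩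
        rw [hf] at hb
        obtain ⟨n, rfl⟩ := hb
        exact mem_iUnion.2 ⟨n, hp⟩
    · intro p hp
      ext x
      refine hdep _ _ ?_
      intro b hb
      have : dl (p : W1 × W1) b = false := by
        by_contra hc
        exact hp ⟨b, hb, (dl_iff _ _).1 (by simpa using hc)⟩
      show xor (x b) (dl (p : W1 × W1) b) = x b
      rw [this, Bool.xor_false]
  · intro N hN
    exact hN

theorem zigzag_L : Zigzag (PT L) (PL L) (lmap fL1 fL2) := by
  refine lay_zigzag _ _ _ _ (mu_univ_le FT.I) (ker_univ_le FT) (kk_univ_le FT gT measurable_gT)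
    k3_univ_le _ _ _ (mu_univ_le F2.I) (ker_univ_le F2) (kk_univ_le F2 gL measurable_gL)
    fL1 fL2 (SId.measurable_map _ small_L) spec_L.1 ?_ ?_ ?_
  · intro D hD
    exact SId.mu_map _ small_L hD
  · intro j Q hQ
    exact spec_L.2 j Q hQ
  · intro e
    rw [kk_apply, kk_apply]
    rfl

theorem zigzag_R : Zigzag (PT L) (PR L) (lmap fR1 fR2) := by
  refine lay_zigzag _ _ _ _ (mu_univ_le FT.I) (ker_univ_le FT) (kk_univ_le FT gT measurable_gT)
    k3_univ_le _ _ _ (mu_univ_le F2'.I) (ker_univ_le F2') (kk_univ_le F2' gR measurable_gR)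
    fR1 fR2 (SId.measurable_map _ small_R) spec_R.1 ?_ ?_ ?_
  · intro D hD
    exact SId.mu_map _ small_R hD
  · intro j Q hQ
    exact spec_R.2 j Q hQ
  · intro e
    rw [kk_apply, kk_apply]
    rfl

/-- the initial states -/
def sL : (PL L).S := Sum.inl ()
def sR : (PR L).S := Sum.inl ()

theorem span : SpanBisim (PL L) (PR L) (sL L) (sR L) :=
  ⟨PT L, lmap fL1 fL2, lmap fR1 fR2, Sum.inl (), zigzag_L L, zigzag_R L, rfl, rfl⟩

end Q224.LM
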